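import Pool.Agent.Helper13.NS.Defs

/-!
# The toric ideal of a 4-generated numerical semigroup has at most `|Gens a|` generators
-/

set_option autoImplicit false

namespace Pool.Agent.Helper75.NSToric

open MvPolynomial Pool.Agent.Helper13.NS

variable {a : Fin 4 → ℕ}

/-! ### The order `mlt` -/

theorem wt_add (a : Fin 4 → ℕ) (u w : ℕ × ℕ × ℕ) : wt a (u + w) = wt a u + wt a w := by
  unfold wt
  simp only [Prod.fst_add, Prod.snd_add]
  ring

theorem mlt_irrefl (a : Fin 4 → ℕ) (u : ℕ × ℕ × ℕ) : ¬ mlt a u u := by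
  unfold mlt
  omega

theorem mlt_trans {u v w : ℕ × ℕ × ℕ} (h1 : mlt a u v) (h2 : mlt a v w) : mlt a u w := by
  unfold mlt at *
  omega

theorem mlt_total (hpos : ∀ i, 0 < a i) {u v : ℕ × ℕ × ℕ} (h : u ≠ v) :
    mlt a u v ∨ mlt a v u := by
  by_contra hc
  push Not at hc
  obtain ⟨h1, h2⟩ := hc
  apply h
  have hw : wt a u = wt a v := by
    unfold mlt at h1 h2; omega
  have hx : u.1 = v.1 := by
    unfold mlt at h1 h2; omega
  have hy : u.2.1 = v.2.1 := by
    unfold mlt at h1 h2; omega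
  have hz : u.2.2 = v.2.2 := by
    unfold wt at hw
    rw [hx, hy] at hw
    have h3 := hpos 3
    have : a 3 * u.2.2 = a 3 * v.2.2 := by omega
    exact Nat.eq_of_mul_eq_mul_left h3 this
  exact Prod.ext hx (Prod.ext hy hz)

theorem mlt_add_iff (a : Fin 4 → ℕ) (u v w : ℕ × ℕ × ℕ) :
    mlt a (u + w) (v + w) ↔ mlt a u v := by
  unfold mlt
  rw [wt_add, wt_add]
  simp only [Prod.fst_add, Prod.snd_add]
  omega

theorem mlt_wf (a : Fin 4 → ℕ) : WellFounded (mlt a) := by
  have h1 : WellFounded (Prod.Lex (· < ·) (Prod.Lex (· < ·) (· < ·)) :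
      ℕ × ℕ × ℕ → ℕ × ℕ × ℕ → Prop) :=
    WellFounded.prod_lex Nat.lt_wfRel.wf
      (WellFounded.prod_lex Nat.lt_wfRel.wf Nat.lt_wfRel.wf)
  have h2 := InvImage.wf (fun u : ℕ × ℕ × ℕ => (wt a u, u.1, u.2.1)) h1
  refine Subrelation.wf ?_ h2
  intro u v huv
  unfold InvImage
  rw [Prod.lex_def, Prod.lex_def]
  unfold mlt at huv
  simp only
  omega

/-! ### Standard monomials -/

theorem std_unique {u v : ℕ × ℕ × ℕ} (hu : u ∈ Std a) (hv : v ∈ Std a)
    (h : wt a u ≡ wt a v [MOD a 0]) : u = v := by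
  by_contra hne
  have h1 := hu v h.symm (Ne.symm hne)
  have h2 := hv u h hne
  exact mlt_irrefl a u (mlt_trans h1 h2)

theorem std_lower {u v : ℕ × ℕ × ℕ} (hu : u ∈ Std a) (hv : v ≤ u) : v ∈ Std a := by
  obtain ⟨w, rfl⟩ : ∃ w, u = v + w := exists_add_of_le hv
  intro x hx hne
  have h1 : wt a (x + w) ≡ wt a (v + w) [MOD a 0] := by
    rw [wt_add, wt_add]
    exact hx.add_right _
  have h2 : x + w ≠ v + w := fun h => hne (add_right_cancel h)
  exact (mlt_add_iff a v x w).1 (hu (x + w) h1 h2)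

theorem exists_rep (hpos : ∀ i, 0 < a i) (u : ℕ × ℕ × ℕ) :
    ∃ r ∈ Std a, wt a r ≡ wt a u [MOD a 0] ∧ (r = u ∨ mlt a r u) := by
  let S : Set (ℕ × ℕ × ℕ) := {v | wt a v ≡ wt a u [MOD a 0]}
  have hS : S.Nonempty := ⟨u, Nat.ModEq.refl _⟩
  let r := (mlt_wf a).min S hS
  have hr : r ∈ S := (mlt_wf a).min_mem S hS
  have hmin : ∀ v ∈ S, ¬ mlt a v r := fun v hv => (mlt_wf a).not_lt_min S hv
  have hle : ∀ v ∈ S, v ≠ r → mlt a r v := by
    intro v hv hne
    rcases mlt_total hpos hne with h | h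
    · exact absurd h (hmin v hv)
    · exact h
  refine ⟨r, ?_, hr, ?_⟩
  · intro v hv hne
    exact hle v (hv.trans hr) hne
  · by_cases h : u = r
    · exact Or.inl h.symm
    · exact Or.inr (hle u (Nat.ModEq.refl _) h)

/-- the standard representative -/
noncomputable def rep (hpos : ∀ i, 0 < a i) (u : ℕ × ℕ × ℕ) : ℕ × ℕ × ℕ :=
  Classical.choose (exists_rep hpos u)

theorem rep_mem (hpos : ∀ i, 0 < a i) (u : ℕ × ℕ × ℕ) : rep hpos u ∈ Std a :=
  (Classical.choose_spec (exists_rep hpos u)).1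

theorem rep_modEq (hpos : ∀ i, 0 < a i) (u : ℕ × ℕ × ℕ) :
    wt a (rep hpos u) ≡ wt a u [MOD a 0] :=
  (Classical.choose_spec (exists_rep hpos u)).2.1

theorem rep_le (hpos : ∀ i, 0 < a i) (u : ℕ × ℕ × ℕ) :
    rep hpos u = u ∨ mlt a (rep hpos u) u :=
  (Classical.choose_spec (exists_rep hpos u)).2.2

theorem wt_rep_le (hpos : ∀ i, 0 < a i) (u : ℕ × ℕ × ℕ) : wt a (rep hpos u) ≤ wt a u := by
  rcases rep_le hpos u with h | h
  · rw [h]
  · unfold mlt at h
    omega

/-- the exponent of the first variable -/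
noncomputable def kk (hpos : ∀ i, 0 < a i) (u : ℕ × ℕ × ℕ) : ℕ :=
  (wt a u - wt a (rep hpos u)) / a 0

theorem kk_spec (hpos : ∀ i, 0 < a i) (u : ℕ × ℕ × ℕ) :
    kk hpos u * a 0 + wt a (rep hpos u) = wt a u := by
  have h1 := wt_rep_le hpos u
  have h2 : a 0 ∣ wt a u - wt a (rep hpos u) :=
    (Nat.modEq_iff_dvd' h1).1 (rep_modEq hpos u)
  unfold kk
  rw [Nat.div_mul_cancel h2]
  omega

theorem gens_finite (a : Fin 4 → ℕ) : (Gens a).Finite := by
  have hanti : IsAntichain (· ≤ ·) (Gens a) := by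
    intro u hu v hv hne hle
    exact hu.1 (hv.2 u hle hne)
  have hp : (Gens a).PartiallyWellOrderedOn (· ≤ ·) := by
    exact Set.isPWO_of_wellQuasiOrderedLE (Gens a)
  exact hanti.finite_of_partiallyWellOrderedOn hp

theorem exists_gen {u : ℕ × ℕ × ℕ} (hu : u ∉ Std a) : ∃ g ∈ Gens a, ∃ w, u = g + w := by
  let S : Set (ℕ × ℕ × ℕ) := {v | v ≤ u ∧ v ∉ Std a}
  have hS : S.Nonempty := ⟨u, le_rfl, hu⟩
  have wf : WellFounded ((· < ·) : ℕ × ℕ × ℕ → ℕ × ℕ × ℕ → Prop) := wellFounded_lt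
  let g := wf.min S hS
  have hg : g ∈ S := wf.min_mem S hS
  refine ⟨g, ⟨hg.2, ?_⟩, ?_⟩
  · intro v hv hne
    by_contra hc
    exact wf.not_lt_min S (x := v) ⟨hv.trans hg.1, hc⟩ (lt_of_le_of_ne hv hne)
  · exact exists_add_of_le hg.1

/-! ### Polynomials -/

/-- the toric map -/
noncomputable def phi (a : Fin 4 → ℕ) : MvPolynomial (Fin 4) ℚ →ₐ[ℚ] Polynomial ℚ :=
  MvPolynomial.aeval (fun i : Fin 4 => (Polynomial.X : Polynomial ℚ) ^ (a i))

/-- monomials -/
noncomputable def mon (k : ℕ) (u : ℕ × ℕ × ℕ) : MvPolynomial (Fin 4) ℚ :=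
  X 0 ^ k * (X 1 ^ u.1 * X 2 ^ u.2.1 * X 3 ^ u.2.2)

theorem mon_mul (k l : ℕ) (u v : ℕ × ℕ × ℕ) : mon k u * mon l v = mon (k + l) (u + v) := by
  unfold mon
  simp only [Prod.fst_add, Prod.snd_add, pow_add]
  ring

theorem phi_mon (a : Fin 4 → ℕ) (k : ℕ) (u : ℕ × ℕ × ℕ) :
    phi a (mon k u) = Polynomial.X ^ (k * a 0 + wt a u) := by
  unfold phi mon wt
  simp only [map_mul, map_pow, aeval_X, ← pow_mul, ← pow_add]
  congr 1
  ring

theorem monomial_eq (s : Fin 4 →₀ ℕ) (c : ℚ) :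
    monomial s c = c • mon (s 0) (s 1, s 2, s 3) := by
  rw [MvPolynomial.monomial_eq, MvPolynomial.smul_eq_C_mul]
  congr 1
  unfold mon
  rw [Finsupp.prod_fintype]
  · rw [Fin.prod_univ_four]
    ring
  · intro i
    simp

/-- the generators of the ideal -/
noncomputable def ff (hpos : ∀ i, 0 < a i) (g : ℕ × ℕ × ℕ) : MvPolynomial (Fin 4) ℚ :=
  mon 0 g - mon (kk hpos g) (rep hpos g)

theorem phi_ff (hpos : ∀ i, 0 < a i) (g : ℕ × ℕ × ℕ) : phi a (ff hpos g) = 0 := by
  unfold ff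
  rw [map_sub, phi_mon, phi_mon, kk_spec, zero_mul, zero_add, sub_self]

/-- the ideal spanned by the generators -/
noncomputable def JJ (hpos : ∀ i, 0 < a i) : Ideal (MvPolynomial (Fin 4) ℚ) :=
  Ideal.span (ff hpos '' Gens a)

theorem reduce (hpos : ∀ i, 0 < a i) (u : ℕ × ℕ × ℕ) :
    ∃ k, ∃ s ∈ Std a, mon 0 u - mon k s ∈ JJ hpos := by
  induction u using (mlt_wf a).induction with
  | _ u ih =>
    by_cases hu : u ∈ Std a
    · exact ⟨0, u, hu, by simp⟩
    · obtain ⟨g, hg, w, rfl⟩ := exists_gen hu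
      have hne : rep hpos g ≠ g := by
        intro h
        apply hg.1
        rw [← h]
        exact rep_mem hpos g
      have hlt : mlt a (rep hpos g) g := by
        rcases rep_le hpos g with h | h
        · exact absurd h hne
        · exact h
      have hlt2 : mlt a (rep hpos g + w) (g + w) := (mlt_add_iff a _ _ w).2 hlt
      obtain ⟨k, s, hs, hk⟩ := ih _ hlt2
      refine ⟨kk hpos g + k, s, hs, ?_⟩
      have h1 : ff hpos g * mon 0 w ∈ JJ hpos :=
        Ideal.mul_mem_right _ _ (Ideal.subset_span ⟨g, hg, rfl⟩)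
      have h2 : mon (kk hpos g) 0 * (mon 0 (rep hpos g + w) - mon k s) ∈ JJ hpos :=
        Ideal.mul_mem_left _ _ hk
      have h3 := Ideal.add_mem _ h1 h2
      have h4 : ff hpos g * mon 0 w + mon (kk hpos g) 0 * (mon 0 (rep hpos g + w) - mon k s)
          = mon 0 (g + w) - mon (kk hpos g + k) s := by
        unfold ff
        rw [sub_mul, mul_sub, mon_mul, mon_mul, mon_mul, mon_mul]
        simp only [add_zero, zero_add]
        ring
      rw [h4] at h3
      exact h3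

/-- index family of the standard monomials times powers of the first variable -/
noncomputable def bb (a : Fin 4 → ℕ) (p : ℕ × Std a) : MvPolynomial (Fin 4) ℚ :=
  mon p.1 p.2.1

theorem reduce_all (hpos : ∀ i, 0 < a i) (p : MvPolynomial (Fin 4) ℚ) :
    ∃ q ∈ Submodule.span ℚ (Set.range (bb a)), p - q ∈ JJ hpos := by
  induction p using MvPolynomial.induction_on' with
  | monomial s c =>
    obtain ⟨k, t, ht, hk⟩ := reduce hpos (s 1, s 2, s 3)
    refine ⟨c • mon (s 0 + k) t, ?_, ?_⟩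
    · exact Submodule.smul_mem _ _ (Submodule.subset_span ⟨(s 0 + k, ⟨t, ht⟩), rfl⟩)
    · rw [monomial_eq, ← smul_sub]
      have h1 : mon (s 0) (s 1, s 2, s 3) - mon (s 0 + k) t
          = mon (s 0) 0 * (mon 0 (s 1, s 2, s 3) - mon k t) := by
        rw [mul_sub, mon_mul, mon_mul]
        simp
      rw [h1, MvPolynomial.smul_eq_C_mul]
      exact Ideal.mul_mem_left _ _ (Ideal.mul_mem_left _ _ hk)
  | add p q hp hq =>
    obtain ⟨p', hp', hp2⟩ := hp
    obtain ⟨q', hq', hq2⟩ := hq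
    refine ⟨p' + q', Submodule.add_mem _ hp' hq', ?_⟩
    have : p + q - (p' + q') = (p - p') + (q - q') := by ring
    rw [this]
    exact Ideal.add_mem _ hp2 hq2

theorem phi_bb_indep (hpos : ∀ i, 0 < a i) :
    LinearIndependent ℚ (fun p : ℕ × Std a => phi a (bb a p)) := by
  have h1 : (fun p : ℕ × Std a => phi a (bb a p))
      = (fun n : ℕ => (Polynomial.X : Polynomial ℚ) ^ n) ∘
        (fun p : ℕ × Std a => p.1 * a 0 + wt a p.2.1) := by
    funext p
    simp only [Function.comp, bb, phi_mon]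
  rw [h1]
  have h2 : LinearIndependent ℚ (fun n : ℕ => (Polynomial.X : Polynomial ℚ) ^ n) := by
    have h := (Polynomial.basisMonomials ℚ).linearIndependent
    have h3 : (⇑(Polynomial.basisMonomials ℚ)) = fun n : ℕ => (Polynomial.X : Polynomial ℚ) ^ n := by
      funext n
      rw [Polynomial.coe_basisMonomials, Polynomial.X_pow_eq_monomial]
    rw [h3] at h
    exact h
  refine h2.comp _ ?_
  rintro ⟨k, s, hs⟩ ⟨l, t, ht⟩ h
  simp only at h
  have hmod : wt a s ≡ wt a t [MOD a 0] := by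
    have e1 : k * a 0 + wt a s ≡ wt a s [MOD a 0] := by
      rw [Nat.ModEq, Nat.mul_comm, Nat.mul_add_mod]
    have e2 : l * a 0 + wt a t ≡ wt a t [MOD a 0] := by
      rw [Nat.ModEq, Nat.mul_comm, Nat.mul_add_mod]
    rw [h] at e1
    exact e1.symm.trans e2
  have hst : s = t := std_unique hs ht hmod
  subst hst
  have hk : k * a 0 = l * a 0 := by omega
  have hkl : k = l := Nat.eq_of_mul_eq_mul_right (hpos 0) hk
  rw [hkl]

theorem phi_inj (hpos : ∀ i, 0 < a i) {q : MvPolynomial (Fin 4) ℚ}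
    (hq : q ∈ Submodule.span ℚ (Set.range (bb a))) (h0 : phi a q = 0) : q = 0 := by
  obtain ⟨l, rfl⟩ := (Finsupp.mem_span_range_iff_exists_finsupp).1 hq
  have h1 := phi_bb_indep hpos
  rw [linearIndependent_iff] at h1
  have h2 : Finsupp.linearCombination ℚ (fun p : ℕ × Std a => phi a (bb a p)) l = 0 := by
    rw [Finsupp.linearCombination_apply]
    rw [← h0]
    unfold Finsupp.sum
    rw [map_sum]
    refine Finset.sum_congr rfl fun p _ => ?_
    rw [map_smul]
  have h3 := h1 l h2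
  rw [h3]
  simp

theorem JJ_eq_ker (hpos : ∀ i, 0 < a i) : JJ hpos = RingHom.ker (phi a) := by
  apply le_antisymm
  · unfold JJ
    rw [Ideal.span_le]
    rintro _ ⟨g, _, rfl⟩
    exact phi_ff hpos g
  · intro p hp
    obtain ⟨q, hq, hpq⟩ := reduce_all hpos p
    have hle : JJ hpos ≤ RingHom.ker (phi a) := by
      unfold JJ
      rw [Ideal.span_le]
      rintro _ ⟨g, _, rfl⟩
      exact phi_ff hpos g
    have h1 : phi a (p - q) = 0 := hle hpq
    have h2 : phi a p = 0 := hp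
    have h3 : phi a q = 0 := by
      rw [map_sub, h2, zero_sub, neg_eq_zero] at h1
      exact h1
    have h4 := phi_inj hpos hq h3
    rw [h4, sub_zero] at hpq
    exact hpq

end Pool.Agent.Helper75.NSToric

namespace Pool.Agent.Helper13.NS

open MvPolynomial Pool.Agent.Helper75.NSToric

/-- The toric ideal has at most `|Gens a|` generators. -/
theorem exists_span (a : Fin 4 → ℕ) (hpos : ∀ i, 0 < a i) :
    (Gens a).Finite ∧
    ∃ s : Finset (MvPolynomial (Fin 4) ℚ), s.card ≤ (Gens a).ncard ∧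
      Ideal.span (s : Set (MvPolynomial (Fin 4) ℚ)) =
        RingHom.ker (MvPolynomial.aeval
          (fun i : Fin 4 => (Polynomial.X : Polynomial ℚ) ^ (a i))) := by
  classical
  refine ⟨gens_finite a, (gens_finite a).toFinset.image (ff hpos), ?_, ?_⟩
  · rw [Set.ncard_eq_toFinset_card _ (gens_finite a)]
    exact Finset.card_image_le
  · rw [Finset.coe_image, Set.Finite.coe_toFinset]
    exact JJ_eq_ker hpos

end Pool.Agent.Helper13.NS
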