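import Pool.Agent.Helper13.NS.Stair
import Pool.Agent.Helper13.NS.Defs
import Pool.Agent.Helper75.NSToric

/-!
# Module B: from the numerical semigroup to a staircase `St (ZMod (a 0))`
-/

set_option autoImplicit false

namespace Pool.Agent.Helper13.NS

open Finset Classical Pool.Agent.Helper75.NSToric

theorem card_U {G : Type} [AddCommGroup G] [Fintype G] (A : St G) (U : Finset (ℕ × ℕ × ℕ))
    (hU : ∀ x y z, (x, y, z) ∈ U ↔ A.S x y z) : U.card = Fintype.card G := by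
  rw [← Finset.card_univ]
  apply Finset.card_bij (fun u _ => u.1 • A.e1 + u.2.1 • A.e2 + u.2.2 • A.e3)
  · intro u _
    exact Finset.mem_univ _
  · rintro ⟨x, y, z⟩ hu ⟨x', y', z'⟩ hu' h
    obtain ⟨h1, h2, h3⟩ := A.inj ((hU x y z).1 hu) ((hU x' y' z').1 hu') h
    subst h1 h2 h3
    rfl
  · intro g _
    obtain ⟨x, y, z, h, e⟩ := A.surj g
    exact ⟨(x, y, z), (hU x y z).2 h, e.symm⟩

theorem gens_ncard {G : Type} [AddCommGroup G] (A : St G) :
    {u : ℕ × ℕ × ℕ | ¬ A.S u.1 u.2.1 u.2.2 ∧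
      ∀ v : ℕ × ℕ × ℕ, v ≤ u → v ≠ u → A.S v.1 v.2.1 v.2.2}.ncard
      ≤ 3 + A.p + A.q + A.r + A.s := by
  let F : Finset (ℕ × ℕ × ℕ) := ({(A.C1, 0, 0), (0, A.C2, 0), (0, 0, A.C3)} : Finset _) ∪
    (cor (fun x y => A.S x y 0) A.C1 A.C2).image (fun c => (c.1, c.2, 0)) ∪
    (cor (fun x z => A.S x 0 z) A.C1 A.C3).image (fun c => (c.1, 0, c.2)) ∪
    (cor (fun y z => A.S 0 y z) A.C2 A.C3).image (fun c => (0, c.1, c.2)) ∪
    full A.S A.C1 A.C2 A.C3
  have hF : F.card ≤ 3 + A.p + A.q + A.r + A.s := by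
    have h1 : ({(A.C1, 0, 0), (0, A.C2, 0), (0, 0, A.C3)} : Finset (ℕ × ℕ × ℕ)).card ≤ 3 :=
      Finset.card_le_three
    have h2 : ((cor (fun x y => A.S x y 0) A.C1 A.C2).image
        (fun c : ℕ × ℕ => ((c.1, c.2, 0) : ℕ × ℕ × ℕ))).card ≤ A.p := Finset.card_image_le
    have h3 : ((cor (fun x z => A.S x 0 z) A.C1 A.C3).image
        (fun c : ℕ × ℕ => ((c.1, 0, c.2) : ℕ × ℕ × ℕ))).card ≤ A.q := Finset.card_image_le
    have h4 : ((cor (fun y z => A.S 0 y z) A.C2 A.C3).image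
        (fun c : ℕ × ℕ => ((0, c.1, c.2) : ℕ × ℕ × ℕ))).card ≤ A.r := Finset.card_image_le
    have h5 : (full A.S A.C1 A.C2 A.C3).card = A.s := rfl
    have e1 := Finset.card_union_le
      (({(A.C1, 0, 0), (0, A.C2, 0), (0, 0, A.C3)} : Finset (ℕ × ℕ × ℕ)))
      ((cor (fun x y => A.S x y 0) A.C1 A.C2).image
        (fun c : ℕ × ℕ => ((c.1, c.2, 0) : ℕ × ℕ × ℕ)))
    have e2 := Finset.card_union_le
      ((({(A.C1, 0, 0), (0, A.C2, 0), (0, 0, A.C3)} : Finset (ℕ × ℕ × ℕ))) ∪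
      ((cor (fun x y => A.S x y 0) A.C1 A.C2).image
        (fun c : ℕ × ℕ => ((c.1, c.2, 0) : ℕ × ℕ × ℕ))))
      ((cor (fun x z => A.S x 0 z) A.C1 A.C3).image
        (fun c : ℕ × ℕ => ((c.1, 0, c.2) : ℕ × ℕ × ℕ)))
    have e3 := Finset.card_union_le
      ((({(A.C1, 0, 0), (0, A.C2, 0), (0, 0, A.C3)} : Finset (ℕ × ℕ × ℕ))) ∪
      ((cor (fun x y => A.S x y 0) A.C1 A.C2).image
        (fun c : ℕ × ℕ => ((c.1, c.2, 0) : ℕ × ℕ × ℕ))) ∪
      ((cor (fun x z => A.S x 0 z) A.C1 A.C3).image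
        (fun c : ℕ × ℕ => ((c.1, 0, c.2) : ℕ × ℕ × ℕ))))
      ((cor (fun y z => A.S 0 y z) A.C2 A.C3).image
        (fun c : ℕ × ℕ => ((0, c.1, c.2) : ℕ × ℕ × ℕ)))
    have e4 := Finset.card_union_le
      ((({(A.C1, 0, 0), (0, A.C2, 0), (0, 0, A.C3)} : Finset (ℕ × ℕ × ℕ))) ∪
      ((cor (fun x y => A.S x y 0) A.C1 A.C2).image
        (fun c : ℕ × ℕ => ((c.1, c.2, 0) : ℕ × ℕ × ℕ))) ∪
      ((cor (fun x z => A.S x 0 z) A.C1 A.C3).image
        (fun c : ℕ × ℕ => ((c.1, 0, c.2) : ℕ × ℕ × ℕ))) ∪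
      ((cor (fun y z => A.S 0 y z) A.C2 A.C3).image
        (fun c : ℕ × ℕ => ((0, c.1, c.2) : ℕ × ℕ × ℕ))))
      (full A.S A.C1 A.C2 A.C3)
    show (_ ∪ _ ∪ _ ∪ _ ∪ _ : Finset (ℕ × ℕ × ℕ)).card ≤ _
    omega
  refine le_trans ?_ hF
  rw [← Set.ncard_coe_finset]
  refine Set.ncard_le_ncard ?_ (Finset.finite_toSet _)
  rintro ⟨x, y, z⟩ ⟨hu, hmin⟩
  simp only at hu hmin
  have hle : ∀ x' y' z', x' ≤ x → y' ≤ y → z' ≤ z → (x' < x ∨ y' < y ∨ z' < z) →
      A.S x' y' z' := by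
    intro x' y' z' h1 h2 h3 h4
    refine hmin (x', y', z') ⟨h1, h2, h3⟩ ?_
    intro h
    simp only [Prod.mk.injEq] at h
    omega
  show (x, y, z) ∈ F
  simp only [F, Finset.mem_union, Finset.mem_insert, Finset.mem_singleton, Finset.mem_image,
    mem_cor, mem_full, Prod.mk.injEq]
  have hx0 : (0 < y ∨ 0 < z) → x < A.C1 := fun h =>
    (A.hC1 x).1 (hle x 0 0 le_rfl (Nat.zero_le _) (Nat.zero_le _) (Or.inr h))
  have hy0 : (0 < x ∨ 0 < z) → y < A.C2 := fun h =>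
    (A.hC2 y).1 (hle 0 y 0 (Nat.zero_le _) le_rfl (Nat.zero_le _)
      (by rcases h with h | h <;> omega))
  have hz0 : (0 < x ∨ 0 < y) → z < A.C3 := fun h =>
    (A.hC3 z).1 (hle 0 0 z (Nat.zero_le _) (Nat.zero_le _) le_rfl
      (by rcases h with h | h <;> omega))
  rcases Nat.eq_zero_or_pos x with hx | hx <;> rcases Nat.eq_zero_or_pos y with hy | hy <;>
    rcases Nat.eq_zero_or_pos z with hz | hz
  · subst hx hy hz
    exact absurd A.zero_mem hu
  · subst hx hy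
    left; left; left; left; right; right
    refine ⟨rfl, rfl, ?_⟩
    have h1 : A.C3 ≤ z := by
      by_contra h
      exact hu ((A.hC3 z).2 (by omega))
    by_contra h2
    have := (A.hC3 A.C3).1 (hle 0 0 A.C3 le_rfl le_rfl h1 (by omega))
    omega
  · subst hx hz
    left; left; left; left; right; left
    refine ⟨rfl, ?_, rfl⟩
    have h1 : A.C2 ≤ y := by
      by_contra h
      exact hu ((A.hC2 y).2 (by omega))
    by_contra h2
    have := (A.hC2 A.C2).1 (hle 0 A.C2 0 le_rfl h1 le_rfl (by omega))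
    omega
  · subst hx
    left; right
    refine ⟨(y, z), ⟨⟨hy0 (by omega), hz0 (by omega)⟩, hy, hz, hu, ?_, ?_⟩, rfl, rfl, rfl⟩
    · exact hle 0 (y - 1) z le_rfl (by omega) le_rfl (by omega)
    · exact hle 0 y (z - 1) le_rfl le_rfl (by omega) (by omega)
  · subst hy hz
    left; left; left; left; left
    refine ⟨?_, rfl, rfl⟩
    have h1 : A.C1 ≤ x := by
      by_contra h
      exact hu ((A.hC1 x).2 (by omega))
    by_contra h2
    have := (A.hC1 A.C1).1 (hle A.C1 0 0 h1 le_rfl le_rfl (by omega))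
    omega
  · subst hy
    left; left; right
    refine ⟨(x, z), ⟨⟨hx0 (by omega), hz0 (by omega)⟩, hx, hz, hu, ?_, ?_⟩, rfl, rfl, rfl⟩
    · exact hle (x - 1) 0 z (by omega) le_rfl le_rfl (by omega)
    · exact hle x 0 (z - 1) le_rfl le_rfl (by omega) (by omega)
  · subst hz
    left; left; left; right
    refine ⟨(x, y), ⟨⟨hx0 (by omega), hy0 (by omega)⟩, hx, hy, hu, ?_, ?_⟩, rfl, rfl, rfl⟩
    · exact hle (x - 1) y 0 (by omega) le_rfl le_rfl (by omega)
    · exact hle x (y - 1) 0 le_rfl (by omega) le_rfl (by omega)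
  · right
    refine ⟨⟨hx0 (by omega), hy0 (by omega), hz0 (by omega)⟩, hx, hy, hz, hu, ?_, ?_, ?_⟩
    · exact hle (x - 1) y z (by omega) le_rfl le_rfl (by omega)
    · exact hle x (y - 1) z le_rfl (by omega) le_rfl (by omega)
    · exact hle x y (z - 1) le_rfl le_rfl (by omega) (by omega)

/-! ### The staircase of a numerical semigroup -/

theorem cast_wt (a : Fin 4 → ℕ) (x y z : ℕ) :
    x • (a 1 : ZMod (a 0)) + y • (a 2 : ZMod (a 0)) + z • (a 3 : ZMod (a 0)) =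
      ((wt a (x, y, z) : ℕ) : ZMod (a 0)) := by
  simp only [wt, nsmul_eq_mul]
  push_cast
  ring

theorem zero_std {a : Fin 4 → ℕ} (hpos : ∀ i, 0 < a i) : ((0, 0, 0) : ℕ × ℕ × ℕ) ∈ Std a := by
  obtain ⟨r, hr, -, h⟩ := exists_rep hpos (0, 0, 0)
  rcases h with h | h
  · rwa [← h]
  · exfalso
    unfold mlt wt at h
    simp at h

theorem one1_std {a : Fin 4 → ℕ} (hpos : ∀ i, 0 < a i)
    (hmin : a 1 ∉ AddSubmonoid.closure (a '' {j : Fin 4 | j ≠ 1})) :
    ((1, 0, 0) : ℕ × ℕ × ℕ) ∈ Std a := by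
  intro v hv hne
  rcases mlt_total hpos (Ne.symm hne) with h | h
  · exact h
  exfalso
  obtain ⟨x, y, z⟩ := v
  have hw : wt a (x, y, z) ≤ a 1 := by
    unfold mlt wt at h
    unfold wt
    simp only at h ⊢
    omega
  have hw1 : wt a (1, 0, 0) = a 1 := by simp [wt]
  rw [hw1] at hv
  obtain ⟨k, hk⟩ : ∃ k, a 1 = wt a (x, y, z) + a 0 * k :=
    (Nat.modEq_iff_exists_eq_add hw).1 hv
  rcases Nat.eq_zero_or_pos x with hx | hx
  · subst hx
    apply hmin
    have h0 : a 0 ∈ AddSubmonoid.closure (a '' {j : Fin 4 | j ≠ 1}) :=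
      AddSubmonoid.subset_closure ⟨0, by simp, rfl⟩
    have h2 : a 2 ∈ AddSubmonoid.closure (a '' {j : Fin 4 | j ≠ 1}) :=
      AddSubmonoid.subset_closure ⟨2, by simp, rfl⟩
    have h3 : a 3 ∈ AddSubmonoid.closure (a '' {j : Fin 4 | j ≠ 1}) :=
      AddSubmonoid.subset_closure ⟨3, by simp, rfl⟩
    rw [hk]
    have e : wt a (0, y, z) + a 0 * k = y • a 2 + z • a 3 + k • a 0 := by
      simp only [wt, smul_eq_mul]
      ring
    rw [e]
    exact add_mem (add_mem (nsmul_mem h2 y) (nsmul_mem h3 z)) (nsmul_mem h0 k)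
  · obtain ⟨x', rfl⟩ : ∃ x', x = x' + 1 := ⟨x - 1, by omega⟩
    have e : wt a (x' + 1, y, z) = a 1 + (a 1 * x' + a 2 * y + a 3 * z) := by
      simp only [wt]
      ring
    have h1 : a 1 * x' + a 2 * y + a 3 * z = 0 := by omega
    have h2 : a 1 * x' = 0 := by omega
    have h3 : a 2 * y = 0 := by omega
    have h4 : a 3 * z = 0 := by omega
    have h5 := (Nat.mul_eq_zero.1 h2).resolve_left (hpos 1).ne'
    have h6 := (Nat.mul_eq_zero.1 h3).resolve_left (hpos 2).ne'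
    have h7 := (Nat.mul_eq_zero.1 h4).resolve_left (hpos 3).ne'
    subst h5 h6 h7
    exact hne rfl

theorem one2_std {a : Fin 4 → ℕ} (hpos : ∀ i, 0 < a i)
    (hmin : a 2 ∉ AddSubmonoid.closure (a '' {j : Fin 4 | j ≠ 2})) :
    ((0, 1, 0) : ℕ × ℕ × ℕ) ∈ Std a := by
  intro v hv hne
  rcases mlt_total hpos (Ne.symm hne) with h | h
  · exact h
  exfalso
  obtain ⟨x, y, z⟩ := v
  have hw : wt a (x, y, z) ≤ a 2 := by
    unfold mlt wt at h
    unfold wt
    simp only at h ⊢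
    omega
  have hw1 : wt a (0, 1, 0) = a 2 := by simp [wt]
  rw [hw1] at hv
  obtain ⟨k, hk⟩ : ∃ k, a 2 = wt a (x, y, z) + a 0 * k :=
    (Nat.modEq_iff_exists_eq_add hw).1 hv
  rcases Nat.eq_zero_or_pos y with hx | hx
  · subst hx
    apply hmin
    have h0 : a 0 ∈ AddSubmonoid.closure (a '' {j : Fin 4 | j ≠ 2}) :=
      AddSubmonoid.subset_closure ⟨0, by simp, rfl⟩
    have h2 : a 1 ∈ AddSubmonoid.closure (a '' {j : Fin 4 | j ≠ 2}) :=
      AddSubmonoid.subset_closure ⟨1, by simp, rfl⟩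
    have h3 : a 3 ∈ AddSubmonoid.closure (a '' {j : Fin 4 | j ≠ 2}) :=
      AddSubmonoid.subset_closure ⟨3, by simp, rfl⟩
    rw [hk]
    have e : wt a (x, 0, z) + a 0 * k = x • a 1 + z • a 3 + k • a 0 := by
      simp only [wt, smul_eq_mul]
      ring
    rw [e]
    exact add_mem (add_mem (nsmul_mem h2 x) (nsmul_mem h3 z)) (nsmul_mem h0 k)
  · obtain ⟨y', rfl⟩ : ∃ x', y = x' + 1 := ⟨y - 1, by omega⟩
    have e : wt a (x, y' + 1, z) = a 2 + (a 1 * x + a 2 * y' + a 3 * z) := by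
      simp only [wt]
      ring
    have h1 : a 1 * x + a 2 * y' + a 3 * z = 0 := by omega
    have h2 : a 1 * x = 0 := by omega
    have h3 : a 2 * y' = 0 := by omega
    have h4 : a 3 * z = 0 := by omega
    have h5 := (Nat.mul_eq_zero.1 h2).resolve_left (hpos 1).ne'
    have h6 := (Nat.mul_eq_zero.1 h3).resolve_left (hpos 2).ne'
    have h7 := (Nat.mul_eq_zero.1 h4).resolve_left (hpos 3).ne'
    subst h5 h6 h7
    exact hne rfl

theorem one3_std {a : Fin 4 → ℕ} (hpos : ∀ i, 0 < a i)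
    (hmin : a 3 ∉ AddSubmonoid.closure (a '' {j : Fin 4 | j ≠ 3})) :
    ((0, 0, 1) : ℕ × ℕ × ℕ) ∈ Std a := by
  intro v hv hne
  rcases mlt_total hpos (Ne.symm hne) with h | h
  · exact h
  exfalso
  obtain ⟨x, y, z⟩ := v
  have hw : wt a (x, y, z) ≤ a 3 := by
    unfold mlt wt at h
    unfold wt
    simp only at h ⊢
    omega
  have hw1 : wt a (0, 0, 1) = a 3 := by simp [wt]
  rw [hw1] at hv
  obtain ⟨k, hk⟩ : ∃ k, a 3 = wt a (x, y, z) + a 0 * k :=
    (Nat.modEq_iff_exists_eq_add hw).1 hv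
  rcases Nat.eq_zero_or_pos z with hx | hx
  · subst hx
    apply hmin
    have h0 : a 0 ∈ AddSubmonoid.closure (a '' {j : Fin 4 | j ≠ 3}) :=
      AddSubmonoid.subset_closure ⟨0, by simp, rfl⟩
    have h2 : a 1 ∈ AddSubmonoid.closure (a '' {j : Fin 4 | j ≠ 3}) :=
      AddSubmonoid.subset_closure ⟨1, by simp, rfl⟩
    have h3 : a 2 ∈ AddSubmonoid.closure (a '' {j : Fin 4 | j ≠ 3}) :=
      AddSubmonoid.subset_closure ⟨2, by simp, rfl⟩
    rw [hk]
    have e : wt a (x, y, 0) + a 0 * k = x • a 1 + y • a 2 + k • a 0 := by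
      simp only [wt, smul_eq_mul]
      ring
    rw [e]
    exact add_mem (add_mem (nsmul_mem h2 x) (nsmul_mem h3 y)) (nsmul_mem h0 k)
  · obtain ⟨z', rfl⟩ : ∃ x', z = x' + 1 := ⟨z - 1, by omega⟩
    have e : wt a (x, y, z' + 1) = a 3 + (a 1 * x + a 2 * y + a 3 * z') := by
      simp only [wt]
      ring
    have h1 : a 1 * x + a 2 * y + a 3 * z' = 0 := by omega
    have h2 : a 1 * x = 0 := by omega
    have h3 : a 2 * y = 0 := by omega
    have h4 : a 3 * z' = 0 := by omega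
    have h5 := (Nat.mul_eq_zero.1 h2).resolve_left (hpos 1).ne'
    have h6 := (Nat.mul_eq_zero.1 h3).resolve_left (hpos 2).ne'
    have h7 := (Nat.mul_eq_zero.1 h4).resolve_left (hpos 3).ne'
    subst h5 h6 h7
    exact hne rfl

theorem exists_bezout (a : Fin 4 → ℕ) (hgcd : Finset.univ.gcd a = 1) :
    ∃ c : Fin 4 → ℤ, ∑ i, c i * (a i : ℤ) = 1 := by
  let I : Ideal ℤ := Ideal.span (Set.range fun i => (a i : ℤ))
  obtain ⟨n, hn⟩ := (inferInstance : I.IsPrincipal)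
  have hdvd : ∀ i, n ∣ (a i : ℤ) := by
    intro i
    have h1 : (a i : ℤ) ∈ I := Ideal.subset_span ⟨i, rfl⟩
    rw [hn] at h1
    exact Ideal.mem_span_singleton.1 h1
  have h1 : n.natAbs ∣ Finset.univ.gcd a := by
    apply Finset.dvd_gcd
    intro i _
    exact Int.natAbs_dvd_natAbs.2 (by simpa using hdvd i) |>.trans (by simp)
  rw [hgcd, Nat.dvd_one] at h1
  have h2 : (1 : ℤ) ∈ I := by
    rw [hn]
    apply Ideal.mem_span_singleton.2
    exact Int.natAbs_dvd_natAbs.1 (by rw [h1]; simp)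
  exact Ideal.mem_span_range_iff_exists_fun.1 h2

theorem exists_St (a : Fin 4 → ℕ) (hmono : StrictMono a) (h0 : 0 < a 0)
    (hgcd : Finset.univ.gcd a = 1)
    (hmin : ∀ i : Fin 4, a i ∉ AddSubmonoid.closure (a '' {j : Fin 4 | j ≠ i})) :
    ∃ A : St (ZMod (a 0)), ∀ x y z, A.S x y z ↔ (x, y, z) ∈ Std a := by
  have hpos : ∀ i, 0 < a i := fun i => lt_of_lt_of_le h0 (hmono.monotone (Fin.zero_le i))
  have : NeZero (a 0) := ⟨h0.ne'⟩
  have hz := zero_std hpos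
  have h1 := one1_std hpos (hmin 1)
  have h2 := one2_std hpos (hmin 2)
  have h3 := one3_std hpos (hmin 3)
  have hinj : ∀ {u v : ℕ × ℕ × ℕ}, u ∈ Std a → v ∈ Std a →
      ((wt a u : ℕ) : ZMod (a 0)) = ((wt a v : ℕ) : ZMod (a 0)) → u = v := by
    intro u v hu hv h
    exact std_unique hu hv ((ZMod.natCast_eq_natCast_iff _ _ _).1 h)
  have hex1 : ∃ n, ((n, 0, 0) : ℕ × ℕ × ℕ) ∉ Std a := by
    refine ⟨a 0, fun h => ?_⟩
    have := hinj h hz (by simp [wt])
    simp only [Prod.mk.injEq] at this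
    omega
  have hex2 : ∃ n, ((0, n, 0) : ℕ × ℕ × ℕ) ∉ Std a := by
    refine ⟨a 0, fun h => ?_⟩
    have := hinj h hz (by simp [wt])
    simp only [Prod.mk.injEq] at this
    omega
  have hex3 : ∃ n, ((0, 0, n) : ℕ × ℕ × ℕ) ∉ Std a := by
    refine ⟨a 0, fun h => ?_⟩
    have := hinj h hz (by simp [wt])
    simp only [Prod.mk.injEq] at this
    omega
  have key1 : ∀ x, ((x, 0, 0) : ℕ × ℕ × ℕ) ∈ Std a ↔ x < Nat.find hex1 := by
    intro x
    constructor
    · intro h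
      by_contra hc
      exact Nat.find_spec hex1 (std_lower h ⟨not_lt.1 hc, le_rfl, le_rfl⟩)
    · intro h
      by_contra hc
      exact Nat.find_min hex1 h hc
  have key2 : ∀ x, ((0, x, 0) : ℕ × ℕ × ℕ) ∈ Std a ↔ x < Nat.find hex2 := by
    intro x
    constructor
    · intro h
      by_contra hc
      exact Nat.find_spec hex2 (std_lower h ⟨le_rfl, not_lt.1 hc, le_rfl⟩)
    · intro h
      by_contra hc
      exact Nat.find_min hex2 h hc
  have key3 : ∀ x, ((0, 0, x) : ℕ × ℕ × ℕ) ∈ Std a ↔ x < Nat.find hex3 := by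
    intro x
    constructor
    · intro h
      by_contra hc
      exact Nat.find_spec hex3 (std_lower h ⟨le_rfl, le_rfl, not_lt.1 hc⟩)
    · intro h
      by_contra hc
      exact Nat.find_min hex3 h hc
  have t1 : 2 ≤ Nat.find hex1 := (key1 1).1 h1
  have t2 : 2 ≤ Nat.find hex2 := (key2 1).1 h2
  have t3 : 2 ≤ Nat.find hex3 := (key3 1).1 h3
  have r1 : ∃ y z, ((0, y, z) : ℕ × ℕ × ℕ) ∈ Std a ∧
      ((wt a (Nat.find hex1, 0, 0) : ℕ) : ZMod (a 0)) = ((wt a (0, y, z) : ℕ) : ZMod (a 0)) := by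
    obtain ⟨⟨x, y, z⟩, hr, hc, -⟩ := exists_rep hpos (Nat.find hex1, 0, 0)
    have hc' := (ZMod.natCast_eq_natCast_iff _ _ _).2 hc
    rcases Nat.eq_zero_or_pos x with hx | hx
    · subst hx
      exact ⟨y, z, hr, hc'.symm⟩
    · exfalso
      obtain ⟨x', rfl⟩ : ∃ x', x = x' + 1 := ⟨x - 1, by omega⟩
      obtain ⟨c', hc1⟩ : ∃ c', Nat.find hex1 = c' + 1 := ⟨Nat.find hex1 - 1, by omega⟩
      have m1 : ((x', y, z) : ℕ × ℕ × ℕ) ∈ Std a :=
        std_lower hr ⟨by simp, le_rfl, le_rfl⟩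
      have m2 : ((c', 0, 0) : ℕ × ℕ × ℕ) ∈ Std a := (key1 c').2 (by omega)
      have e := hinj m1 m2 (by
        rw [hc1] at hc'
        simp only [wt] at hc' ⊢
        push_cast at hc' ⊢
        linear_combination hc')
      simp only [Prod.mk.injEq] at e
      obtain ⟨e1, e2, e3⟩ := e
      subst e1 e2 e3
      rw [← hc1] at hr
      exact Nat.find_spec hex1 hr
  have r2 : ∃ x z, ((x, 0, z) : ℕ × ℕ × ℕ) ∈ Std a ∧
      ((wt a (0, Nat.find hex2, 0) : ℕ) : ZMod (a 0)) = ((wt a (x, 0, z) : ℕ) : ZMod (a 0)) := by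
    obtain ⟨⟨x, y, z⟩, hr, hc, -⟩ := exists_rep hpos (0, Nat.find hex2, 0)
    have hc' := (ZMod.natCast_eq_natCast_iff _ _ _).2 hc
    rcases Nat.eq_zero_or_pos y with hx | hx
    · subst hx
      exact ⟨x, z, hr, hc'.symm⟩
    · exfalso
      obtain ⟨y', rfl⟩ : ∃ x', y = x' + 1 := ⟨y - 1, by omega⟩
      obtain ⟨c', hc1⟩ : ∃ c', Nat.find hex2 = c' + 1 := ⟨Nat.find hex2 - 1, by omega⟩
      have m1 : ((x, y', z) : ℕ × ℕ × ℕ) ∈ Std a :=
        std_lower hr ⟨le_rfl, by simp, le_rfl⟩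
      have m2 : ((0, c', 0) : ℕ × ℕ × ℕ) ∈ Std a := (key2 c').2 (by omega)
      have e := hinj m1 m2 (by
        rw [hc1] at hc'
        simp only [wt] at hc' ⊢
        push_cast at hc' ⊢
        linear_combination hc')
      simp only [Prod.mk.injEq] at e
      obtain ⟨e1, e2, e3⟩ := e
      subst e1 e2 e3
      rw [← hc1] at hr
      exact Nat.find_spec hex2 hr
  have r3 : ∃ x y, ((x, y, 0) : ℕ × ℕ × ℕ) ∈ Std a ∧
      ((wt a (0, 0, Nat.find hex3) : ℕ) : ZMod (a 0)) = ((wt a (x, y, 0) : ℕ) : ZMod (a 0)) := by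
    obtain ⟨⟨x, y, z⟩, hr, hc, -⟩ := exists_rep hpos (0, 0, Nat.find hex3)
    have hc' := (ZMod.natCast_eq_natCast_iff _ _ _).2 hc
    rcases Nat.eq_zero_or_pos z with hx | hx
    · subst hx
      exact ⟨x, y, hr, hc'.symm⟩
    · exfalso
      obtain ⟨z', rfl⟩ : ∃ x', z = x' + 1 := ⟨z - 1, by omega⟩
      obtain ⟨c', hc1⟩ : ∃ c', Nat.find hex3 = c' + 1 := ⟨Nat.find hex3 - 1, by omega⟩
      have m1 : ((x, y, z') : ℕ × ℕ × ℕ) ∈ Std a :=
        std_lower hr ⟨le_rfl, le_rfl, by simp⟩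
      have m2 : ((0, 0, c') : ℕ × ℕ × ℕ) ∈ Std a := (key3 c').2 (by omega)
      have e := hinj m1 m2 (by
        rw [hc1] at hc'
        simp only [wt] at hc' ⊢
        push_cast at hc' ⊢
        linear_combination hc')
      simp only [Prod.mk.injEq] at e
      obtain ⟨e1, e2, e3⟩ := e
      subst e1 e2 e3
      rw [← hc1] at hr
      exact Nat.find_spec hex3 hr
  obtain ⟨y1, z1, hs1, hf1⟩ := r1
  obtain ⟨x2, z2, hs2, hf2⟩ := r2
  obtain ⟨x3, y3, hs3, hf3⟩ := r3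
  obtain ⟨c, hc⟩ := exists_bezout a hgcd
  refine ⟨{
    e1 := (a 1 : ZMod (a 0))
    e2 := (a 2 : ZMod (a 0))
    e3 := (a 3 : ZMod (a 0))
    S := fun x y z => (x, y, z) ∈ Std a
    down := fun h hx hy hz => std_lower h ⟨hx, hy, hz⟩
    inj := fun h h' e => by
      rw [cast_wt, cast_wt] at e
      have := hinj h h' e
      simpa only [Prod.mk.injEq] using this
    surj := fun g => ?_
    C1 := Nat.find hex1
    C2 := Nat.find hex2
    C3 := Nat.find hex3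
    hC1 := key1
    hC2 := key2
    hC3 := key3
    two1 := t1
    two2 := t2
    two3 := t3
    y1 := y1
    z1 := z1
    x2 := x2
    z2 := z2
    x3 := x3
    y3 := y3
    s1 := hs1
    s2 := hs2
    s3 := hs3
    f1 := ?_
    f2 := ?_
    f3 := ?_ }, fun x y z => Iff.rfl⟩
  · have hg : g = ((wt a ((g * (c 1 : ZMod (a 0))).val, (g * (c 2 : ZMod (a 0))).val,
        (g * (c 3 : ZMod (a 0))).val) : ℕ) : ZMod (a 0)) := by
      simp only [wt]
      push_cast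
      rw [ZMod.natCast_zmod_val, ZMod.natCast_zmod_val, ZMod.natCast_zmod_val]
      have h4 : ((∑ i, c i * (a i : ℤ) : ℤ) : ZMod (a 0)) = 1 := by rw [hc]; simp
      rw [Fin.sum_univ_four] at h4
      push_cast at h4
      rw [ZMod.natCast_self, mul_zero, zero_add] at h4
      linear_combination (-g) * h4
    obtain ⟨⟨x, y, z⟩, hr, hcc, -⟩ := exists_rep hpos ((g * (c 1 : ZMod (a 0))).val,
      (g * (c 2 : ZMod (a 0))).val, (g * (c 3 : ZMod (a 0))).val)
    refine ⟨x, y, z, hr, ?_⟩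
    rw [cast_wt, (ZMod.natCast_eq_natCast_iff _ _ _).2 hcc]
    exact hg
  · have e1 := cast_wt a (Nat.find hex1) 0 0
    have e2 := cast_wt a 0 y1 z1
    simp only [zero_smul, add_zero, zero_add] at e1 e2
    rw [e1, e2]
    exact hf1
  · have e1 := cast_wt a 0 (Nat.find hex2) 0
    have e2 := cast_wt a x2 0 z2
    simp only [zero_smul, add_zero, zero_add] at e1 e2
    rw [e1, e2]
    exact hf2
  · have e1 := cast_wt a 0 0 (Nat.find hex3)
    have e2 := cast_wt a x3 y3 0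
    simp only [zero_smul, add_zero, zero_add] at e1 e2
    rw [e1, e2]
    exact hf3

end Pool.Agent.Helper13.NS
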