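import Mathlib

/-! Definitions: codes, maximal codes, synchronization delay. -/

namespace Pool.Agent.Helper75.Codes

open scoped Computability

universe u
variable {A : Type u}

/-- `X` is a code: it does not contain the empty word, and every word has at most one
factorization as a product of elements of `X`. -/
def IsCode (X : Language A) : Prop :=
  [] ∉ X ∧ ∀ L₁ L₂ : List (List A), (∀ w ∈ L₁, w ∈ X) → (∀ w ∈ L₂, w ∈ X) →
    L₁.flatten = L₂.flatten → L₁ = L₂

/-- `X` is a maximal code: a code not properly contained in any other code over `A`. -/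
def IsMaximalCode (X : Language A) : Prop :=
  IsCode X ∧ ∀ Y : Language A, IsCode Y → X ≤ Y → Y = X

/-- `X` has synchronization delay `d`: for all `x, y ∈ X ^ d` and all words `u, v`,
if `u x y v ∈ X∗` then `u x ∈ X∗`. -/
def HasSyncDelay (X : Language A) (d : ℕ) : Prop :=
  ∀ x ∈ X ^ d, ∀ y ∈ X ^ d, ∀ u v : List A, u ++ x ++ y ++ v ∈ X∗ → u ++ x ∈ X∗

end Pool.Agent.Helper75.Codes
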