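import Mathlib

/-!
Definitions for the statement on EKR robustness of permutation groups.
-/

namespace Pool.Agent.Helper75.EkrDefs

/-- The set `Der(G)` of derangements of a permutation group `G ≤ Sym(n)`. -/
def Der {n : ℕ} (G : Subgroup (Equiv.Perm (Fin n))) : Set G :=
  {g | ∀ i : Fin n, (g : Equiv.Perm (Fin n)) i ≠ i}

/-- The set `D_{i → j}` of derangements of `G` mapping `i` to `j`. -/
def DerTo {n : ℕ} (G : Subgroup (Equiv.Perm (Fin n))) (i j : Fin n) : Set G :=
  {g | g ∈ Der G ∧ (g : Equiv.Perm (Fin n)) i = j}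

/-- The Cayley graph `Cay(G, C)`: distinct `g`, `h` are adjacent iff `g⁻¹ h ∈ C` or `h⁻¹ g ∈ C`.
(For inverse-closed `C` not containing `1` this is `g ~ h ↔ g⁻¹ h ∈ C`.) -/
def Cay {G : Type} [Group G] (C : Set G) : SimpleGraph G :=
  SimpleGraph.fromRel fun g h => g⁻¹ * h ∈ C

/-- The number of labels `{d, d⁻¹}`, `d ∈ D`. -/
noncomputable def numLabels {G : Type} [Group G] (D : Set G) : ℕ :=
  {l : Set G | ∃ d ∈ D, l = {d, d⁻¹}}.ncard

/-- The number `𝐝_G`: the minimum over `i ≠ j` of the number of labels in `D_{i → j}`. -/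
noncomputable def dG {n : ℕ} (G : Subgroup (Equiv.Perm (Fin n))) : ℕ :=
  sInf {k : ℕ | ∃ i j : Fin n, i ≠ j ∧ k = numLabels (DerTo G i j)}

/-- `G ≤ Sym(n)` is EKR robust: for every inverse-closed set `D` of derangements of `G` with fewer
than `𝐝_G` labels the independence number of `Cay(G, Der(G) \ D)` equals `|G| / n`. -/
def EKRRobust {n : ℕ} (G : Subgroup (Equiv.Perm (Fin n))) : Prop :=
  ∀ D : Set G, D ⊆ Der G → (∀ d ∈ D, d⁻¹ ∈ D) → numLabels D < dG G →
    ((Cay (Der G \ D)).indepNum : ℚ) = (Nat.card G : ℚ) / n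

end Pool.Agent.Helper75.EkrDefs
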