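import Pool.Agent.Helper75.Reg
import Pool.Agent.Helper75.CodeDefs

/-! The base of a stable submonoid of a free monoid is a code. -/

namespace Pool.Agent.Helper75

open Language Set Codes
open scoped Computability

universe u
variable {A : Type u}

/-- a code generates a stable submonoid -/
theorem stable_of_code {X : Language A} (hX : IsCode X) {u w v : List A}
    (hu : u ∈ X∗) (hv : v ∈ X∗) (huw : u ++ w ∈ X∗) (hwv : w ++ v ∈ X∗) : w ∈ X∗ := by
  obtain ⟨Lu, hLu, hLu'⟩ := Language.mem_kstar.1 hu
  obtain ⟨Lv, hLv, hLv'⟩ := Language.mem_kstar.1 hv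
  obtain ⟨L1, hL1, hL1'⟩ := Language.mem_kstar.1 huw
  obtain ⟨L2, hL2, hL2'⟩ := Language.mem_kstar.1 hwv
  have hflat : (L1 ++ Lv).flatten = (Lu ++ L2).flatten := by
    rw [List.flatten_append, List.flatten_append, ← hL1, ← hLv, ← hLu, ← hL2, List.append_assoc]
  have heq : L1 ++ Lv = Lu ++ L2 := by
    apply hX.2 _ _ _ _ hflat
    · intro z hz
      rcases List.mem_append.1 hz with h | h
      · exact hL1' _ h
      · exact hLv' _ h
    · intro z hz
      rcases List.mem_append.1 hz with h | h
      · exact hLu' _ h
      · exact hL2' _ h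
  rcases List.append_eq_append_iff.1 heq with ⟨c, hc, hc'⟩ | ⟨c, hc, hc'⟩
  · -- Lu = L1 ++ c
    have : u = u ++ w ++ c.flatten := by
      conv_lhs => rw [hLu, hc, List.flatten_append, ← hL1]
    have h2 : w ++ c.flatten = [] := by
      rw [List.append_assoc] at this
      simpa using this
    have h3 : w = [] := (List.append_eq_nil_iff.1 h2).1
    rw [h3]
    exact nil_mem_kstar _
  · -- L1 = Lu ++ c
    have : u ++ w = u ++ c.flatten := by
      rw [hL1, hc, List.flatten_append, ← hLu]
    have h3 : w = c.flatten := List.append_cancel_left this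
    rw [h3]
    apply join_mem_kstar
    intro y hy
    apply hL1'
    rw [hc]
    exact List.mem_append_right _ hy

/-- the base of a language (submonoid) -/
def base (M : Language A) : Language A := (M - 1) - (M - 1) * (M - 1)

theorem regular_base {M : Language A} (h : M.IsRegular) : (base M).IsRegular :=
  regular_sub (regular_sub h regular_one)
    (regular_mul (regular_sub h regular_one) (regular_sub h regular_one))

theorem base_le (M : Language A) {w : List A} (h : w ∈ base M) : w ∈ M := by
  exact h.1.1

theorem base_ne_nil (M : Language A) {w : List A} (h : w ∈ base M) : w ≠ [] := by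
  exact h.1.2

theorem base_irred (M : Language A) {a b : List A} (h : a ++ b ∈ base M) (ha : a ∈ M) (hb : b ∈ M)
    (ha' : a ≠ []) (hb' : b ≠ []) : False := by
  apply h.2
  exact Language.append_mem_mul ⟨ha, ha'⟩ ⟨hb, hb'⟩

theorem mem_base {M : Language A} {w : List A} (h : w ∈ M) (h' : w ≠ [])
    (hirr : ∀ a b, a ∈ M → b ∈ M → a ≠ [] → b ≠ [] → a ++ b ≠ w) : w ∈ base M := by
  refine ⟨⟨h, h'⟩, ?_⟩
  intro hm
  obtain ⟨a, ha, b, hb, hab⟩ := Language.mem_mul.1 hm
  exact hirr a b ha.1 hb.1 ha.2 hb.2 hab

theorem mem_kstar_base {M : Language A} : ∀ (n : ℕ) (w : List A), w.length ≤ n → w ∈ M →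
    w ∈ (base M)∗ := by
  intro n
  induction n with
  | zero =>
    intro w hw _
    have : w = [] := List.length_eq_zero_iff.1 (Nat.le_zero.1 hw)
    rw [this]; exact nil_mem_kstar _
  | succ n ih =>
    intro w hw hwM
    by_cases h0 : w = []
    · rw [h0]; exact nil_mem_kstar _
    by_cases h1 : w ∈ base M
    · exact mem_kstar_of_mem h1
    · have : w ∈ (M - 1) * (M - 1) := by
        by_contra hcon
        exact h1 ⟨⟨hwM, h0⟩, hcon⟩
      obtain ⟨a, ha, b, hb, hab⟩ := Language.mem_mul.1 this
      have ha0 : 0 < a.length := List.length_pos_iff.2 ha.2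
      have hb0 : 0 < b.length := List.length_pos_iff.2 hb.2
      have hlen : a.length + b.length = w.length := by rw [← hab, List.length_append]
      rw [← hab]
      exact kstar_append (ih a (by omega) ha.1) (ih b (by omega) hb.1)

theorem kstar_base {M : Language A} (h1 : [] ∈ M) (hmul : ∀ a b, a ∈ M → b ∈ M → a ++ b ∈ M) :
    (base M)∗ = M := by
  ext w
  constructor
  · intro hw
    obtain ⟨L, rfl, hL⟩ := Language.mem_kstar.1 hw
    clear hw
    induction L with
    | nil => simpa using h1
    | cons a L ih =>
      rw [List.flatten_cons]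
      exact hmul _ _ (base_le _ (hL a (by simp))) (ih (fun y hy => hL y (by simp [hy])))
  · intro hw
    exact mem_kstar_base _ w le_rfl hw

theorem flatten_base_mem {M : Language A} (h1 : [] ∈ M)
    (hmul : ∀ a b, a ∈ M → b ∈ M → a ++ b ∈ M) {L : List (List A)} (hL : ∀ w ∈ L, w ∈ base M) :
    L.flatten ∈ M := by
  have : L.flatten ∈ (base M)∗ := join_mem_kstar hL
  rwa [kstar_base h1 hmul] at this

/-- the base of a stable submonoid is a code -/
theorem isCode_base {M : Language A} (h1 : [] ∈ M) (hmul : ∀ a b, a ∈ M → b ∈ M → a ++ b ∈ M)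
    (hst : ∀ u w v : List A, u ∈ M → v ∈ M → u ++ w ∈ M → w ++ v ∈ M → w ∈ M) :
    IsCode (base M) := by
  refine ⟨fun h => base_ne_nil _ h rfl, ?_⟩
  intro L₁
  induction L₁ with
  | nil =>
    intro L₂ _ h₂ hf
    cases L₂ with
    | nil => rfl
    | cons w L₂ =>
      exfalso
      simp only [List.flatten_nil, List.flatten_cons] at hf
      have := (List.append_eq_nil_iff.1 hf.symm).1
      exact base_ne_nil _ (h₂ w (by simp)) this
  | cons w L₁ ih =>
    intro L₂ hL₁ hL₂ hf
    cases L₂ with
    | nil =>
      exfalso
      simp only [List.flatten_nil, List.flatten_cons] at hf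
      have := (List.append_eq_nil_iff.1 hf).1
      exact base_ne_nil _ (hL₁ w (by simp)) this
    | cons w' L₂ =>
      have hw : w ∈ base M := hL₁ w (by simp)
      have hw' : w' ∈ base M := hL₂ w' (by simp)
      have hL₁' : ∀ x ∈ L₁, x ∈ base M := fun x hx => hL₁ x (by simp [hx])
      have hL₂' : ∀ x ∈ L₂, x ∈ base M := fun x hx => hL₂ x (by simp [hx])
      have hm1 := flatten_base_mem h1 hmul hL₁'
      have hm2 := flatten_base_mem h1 hmul hL₂'
      rw [List.flatten_cons, List.flatten_cons] at hf
      have hww : w = w' := by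
        rcases List.append_eq_append_iff.1 hf with ⟨c, hc, hc'⟩ | ⟨c, hc, hc'⟩
        · by_contra hne
          have hc0 : c ≠ [] := by
            rintro rfl
            apply hne; rw [hc]; simp
          have hcM : c ∈ M := by
            refine hst w c L₂.flatten (base_le _ hw) hm2 ?_ ?_
            · rw [← hc]; exact base_le _ hw'
            · rw [← hc']; exact hm1
          rw [hc] at hw'
          exact base_irred M hw' (base_le _ hw) hcM (base_ne_nil _ hw) hc0
        · by_contra hne
          have hc0 : c ≠ [] := by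
            rintro rfl
            apply hne; rw [hc]; simp
          have hcM : c ∈ M := by
            refine hst w' c L₁.flatten (base_le _ hw') hm1 ?_ ?_
            · rw [← hc]; exact base_le _ hw
            · rw [← hc']; exact hm2
          rw [hc] at hw
          exact base_irred M hw (base_le _ hw') hcM (base_ne_nil _ hw') hc0
      subst hww
      have hf' : L₁.flatten = L₂.flatten := List.append_cancel_left hf
      rw [ih L₂ hL₁' hL₂' hf']

/-- If the submonoid generated by a code `Y` contains `p A* p` for some `p ∈ Y*`, then `Y` is a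
maximal code. -/
theorem maximal_of_absorbing {Y : Language A} (hY : IsCode Y) {p : List A} (hp : p ∈ Y∗)
    (habs : ∀ z : List A, p ++ z ++ p ∈ Y∗) : IsMaximalCode Y := by
  refine ⟨hY, ?_⟩
  intro Z hZ hYZ
  apply le_antisymm _ hYZ
  intro z hz
  by_contra hzY
  obtain ⟨Lp, hLp, hLp'⟩ := Language.mem_kstar.1 hp
  obtain ⟨L, hL, hL'⟩ := Language.mem_kstar.1 (habs z)
  have heq : Lp ++ [z] ++ Lp = L := by
    apply hZ.2
    · intro w hw
      simp only [List.mem_append, List.mem_singleton] at hw
      rcases hw with (h | h) | h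
      · exact hYZ (hLp' _ h)
      · rw [h]; exact hz
      · exact hYZ (hLp' _ h)
    · intro w hw
      exact hYZ (hL' _ hw)
    · rw [← hL, List.flatten_append, List.flatten_append, ← hLp]
      simp
  have hzL : z ∈ L := by rw [← heq]; simp
  exact hzY (hL' _ hzL)

end Pool.Agent.Helper75
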