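import Mathlib

/-! Closure properties of regular languages (product, star, difference) via Myhill-Nerode. -/

namespace Pool.Agent.Helper75

open Language Set
open scoped Computability

universe u
variable {A : Type u}

theorem regular_of_finite_invariant {L : Language A} {T : Type*} (S : Set T) (hS : S.Finite)
    (f : List A → T) (hf : ∀ x, f x ∈ S) (h : ∀ x y, f x = f y → L.leftQuotient x = L.leftQuotient y) :
    L.IsRegular := by
  classical
  apply Language.IsRegular.of_finite_range_leftQuotient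
  have hfin : (Set.range f).Finite := hS.subset (by rintro _ ⟨x, rfl⟩; exact hf x)
  have : Set.range L.leftQuotient ⊆
      (fun t => if ht : ∃ x, f x = t then L.leftQuotient ht.choose else L) '' (Set.range f) := by
    rintro _ ⟨x, rfl⟩
    refine ⟨f x, ⟨x, rfl⟩, ?_⟩
    have hx : ∃ z, f z = f x := ⟨x, rfl⟩
    simp only [hx, dite_true]
    exact h _ _ hx.choose_spec
  exact (hfin.image _).subset this

theorem regular_top : (⊤ : Language A).IsRegular := by
  apply Language.IsRegular.of_finite_range_leftQuotient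
  apply (Set.finite_singleton (⊤ : Language A)).subset
  rintro _ ⟨x, rfl⟩
  simp only [Set.mem_singleton_iff]
  ext y
  exact ⟨fun _ => Set.mem_univ _, fun _ => Set.mem_univ _⟩

theorem regular_one : (1 : Language A).IsRegular := by
  apply regular_of_finite_invariant (T := Prop) (S := Set.univ) Set.finite_univ
    (fun x => x = []) (fun _ => Set.mem_univ _)
  intro x y hxy
  ext z
  simp only [mem_leftQuotient, mem_one, List.append_eq_nil_iff]
  rw [hxy]

theorem regular_sub {L₁ L₂ : Language A} (h1 : L₁.IsRegular) (h2 : L₂.IsRegular) :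
    (L₁ - L₂).IsRegular := by
  have : L₁ - L₂ = L₁ ⊓ L₂ᶜ := by
    ext x; rfl
  rw [this]
  exact h1.inf h2.compl

theorem regular_mul {L₁ L₂ : Language A} (h1 : L₁.IsRegular) (h2 : L₂.IsRegular) :
    (L₁ * L₂).IsRegular := by
  apply regular_of_finite_invariant (T := Language A × Set (Language A))
    (S := (Set.range L₁.leftQuotient) ×ˢ (𝒫 (Set.range L₂.leftQuotient)))
    (h1.finite_range_leftQuotient.prod h2.finite_range_leftQuotient.finite_subsets)
    (fun x => (L₁.leftQuotient x, {q | ∃ x₁ x₂, x₁ ++ x₂ = x ∧ x₁ ∈ L₁ ∧ q = L₂.leftQuotient x₂}))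
  · intro x
    refine ⟨⟨x, rfl⟩, ?_⟩
    rintro q ⟨x₁, x₂, -, -, rfl⟩
    exact ⟨x₂, rfl⟩
  · intro x y hxy
    have key : ∀ x z : List A, x ++ z ∈ L₁ * L₂ ↔
        (∃ z₁ z₂, z₁ ++ z₂ = z ∧ z₁ ∈ L₁.leftQuotient x ∧ z₂ ∈ L₂) ∨
        (∃ q ∈ {q | ∃ x₁ x₂, x₁ ++ x₂ = x ∧ x₁ ∈ L₁ ∧ q = L₂.leftQuotient x₂}, z ∈ q) := by
      intro x z
      constructor
      · intro h
        obtain ⟨a, ha, b, hb, hab⟩ := Language.mem_mul.1 h
        rcases List.append_eq_append_iff.1 hab with ⟨c, hc, hc'⟩ | ⟨c, hc, hc'⟩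
        · right
          refine ⟨L₂.leftQuotient c, ⟨a, c, hc.symm, ha, rfl⟩, ?_⟩
          rw [mem_leftQuotient, ← hc']
          exact hb
        · left
          refine ⟨c, b, hc'.symm, ?_, hb⟩
          rw [mem_leftQuotient, ← hc]
          exact ha
      · rintro (⟨z₁, z₂, rfl, h₁, h₂⟩ | ⟨q, ⟨x₁, x₂, rfl, h₁, rfl⟩, h₂⟩)
        · rw [← List.append_assoc]
          exact Language.append_mem_mul h₁ h₂
        · rw [List.append_assoc]
          exact Language.append_mem_mul h₁ h₂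
    ext z
    rw [mem_leftQuotient, mem_leftQuotient, key, key]
    have e1 := congrArg Prod.fst hxy
    have e2 := congrArg Prod.snd hxy
    simp only at e1 e2
    rw [e1, e2]

theorem flatten_append_split {X : Language A} : ∀ (l : List (List A)), (∀ w ∈ l, w ∈ X) →
    ∀ x z : List A, x ++ z = l.flatten → z ≠ [] → 
    ∃ x₁ x₂ z₁ z₂, x₁ ++ x₂ = x ∧ z₁ ++ z₂ = z ∧ x₁ ∈ X∗ ∧ x₂ ++ z₁ ∈ X ∧ z₂ ∈ X∗ := by
  intro l
  induction l with
  | nil =>
    intro _ x z h hz
    simp at h
    exact absurd h.2 hz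
  | cons w l ih =>
    intro hw x z h hz
    have hwX : w ∈ X := hw w (by simp)
    have hl : ∀ w ∈ l, w ∈ X := fun v hv => hw v (by simp [hv])
    rw [List.flatten_cons] at h
    rcases List.append_eq_append_iff.1 h with ⟨c, hc, hc'⟩ | ⟨c, hc, hc'⟩
    · -- w = x ++ c, z = c ++ l.flatten
      refine ⟨[], x, c, l.flatten, by simp, hc'.symm, nil_mem_kstar _, ?_, join_mem_kstar hl⟩
      rw [← hc]; exact hwX
    · -- x = w ++ c, l.flatten = c ++ z
      obtain ⟨x₁, x₂, z₁, z₂, h1, h2, h3, h4, h5⟩ := ih hl c z hc'.symm hz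
      refine ⟨w ++ x₁, x₂, z₁, z₂, ?_, h2, ?_, h4, h5⟩
      · rw [hc, List.append_assoc, h1]
      · obtain ⟨L, hL, hL'⟩ := Language.mem_kstar.1 h3
        rw [Language.mem_kstar]
        refine ⟨w :: L, by simp [hL], ?_⟩
        intro y hy
        rcases List.mem_cons.1 hy with rfl | hy
        · exact hwX
        · exact hL' _ hy

theorem kstar_append {X : Language A} {x y : List A} (hx : x ∈ X∗) (hy : y ∈ X∗) :
    x ++ y ∈ X∗ := by
  obtain ⟨L, rfl, hL⟩ := Language.mem_kstar.1 hx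
  obtain ⟨L', rfl, hL'⟩ := Language.mem_kstar.1 hy
  rw [← List.flatten_append]
  apply join_mem_kstar
  intro y hy
  rcases List.mem_append.1 hy with h | h
  · exact hL _ h
  · exact hL' _ h

theorem mem_kstar_of_mem {X : Language A} {x : List A} (hx : x ∈ X) : x ∈ X∗ := by
  rw [Language.mem_kstar]
  exact ⟨[x], by simp, by simpa using hx⟩

theorem regular_kstar {X : Language A} (h : X.IsRegular) : (X∗).IsRegular := by
  apply regular_of_finite_invariant (T := Prop × Set (Language A))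
    (S := (Set.univ : Set Prop) ×ˢ (𝒫 (Set.range X.leftQuotient)))
    (Set.finite_univ.prod h.finite_range_leftQuotient.finite_subsets)
    (fun x => (x ∈ X∗, {q | ∃ x₁ x₂, x₁ ++ x₂ = x ∧ x₁ ∈ X∗ ∧ q = X.leftQuotient x₂}))
  · intro x
    refine ⟨Set.mem_univ _, ?_⟩
    rintro q ⟨x₁, x₂, -, -, rfl⟩
    exact ⟨x₂, rfl⟩
  · intro x y hxy
    have key : ∀ x z : List A, x ++ z ∈ X∗ ↔
        (x ∈ X∗ ∧ z = []) ∨
        (∃ q ∈ {q | ∃ x₁ x₂, x₁ ++ x₂ = x ∧ x₁ ∈ X∗ ∧ q = X.leftQuotient x₂},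
          ∃ z₁ z₂, z₁ ++ z₂ = z ∧ z₁ ∈ q ∧ z₂ ∈ X∗) := by
      intro x z
      constructor
      · intro hxz
        by_cases hz : z = []
        · left; subst hz; simpa using hxz
        · right
          obtain ⟨L, hL, hL'⟩ := Language.mem_kstar.1 hxz
          obtain ⟨x₁, x₂, z₁, z₂, h1, h2, h3, h4, h5⟩ := flatten_append_split L hL' x z hL hz
          exact ⟨_, ⟨x₁, x₂, h1, h3, rfl⟩, z₁, z₂, h2, h4, h5⟩
      · rintro (⟨h1, rfl⟩ | ⟨q, ⟨x₁, x₂, rfl, h3, rfl⟩, z₁, z₂, rfl, h4, h5⟩)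
        · simpa using h1
        · have : x₁ ++ x₂ ++ (z₁ ++ z₂) = x₁ ++ ((x₂ ++ z₁) ++ z₂) := by simp
          rw [this]
          exact kstar_append h3 (kstar_append (mem_kstar_of_mem h4) h5)
    ext z
    rw [mem_leftQuotient, mem_leftQuotient, key, key]
    have e1 := congrArg Prod.fst hxy
    have e2 := congrArg Prod.snd hxy
    simp only at e1 e2
    rw [e1, e2]

theorem regular_pow {X : Language A} (h : X.IsRegular) (n : ℕ) : (X ^ n).IsRegular := by
  induction n with
  | zero => rw [pow_zero]; exact regular_one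
  | succ n ih => rw [pow_succ]; exact regular_mul ih h

end Pool.Agent.Helper75
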