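import Pool.Agent.Helper75.SyncTwoMain

/-! The one-sided construction. -/

namespace Pool.Agent.Helper75

open Language Set Codes
open scoped Computability

universe u
variable {A : Type u}

/-- data for the one-sided construction -/
structure OneSide (X : Language A) (n : ℕ) : Prop where
  code : IsCode X
  sync : ∀ ξ ∈ X ^ n, ∀ u v : List A, u ++ ξ ++ v ∈ X∗ → u ++ ξ ∈ X∗

def TT (X : Language A) (t : List A) : Prop := t ∉ X∗ ∧ ∃ u ∈ X∗, u ++ t ∈ X∗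
def NN (X : Language A) (n : ℕ) (w : List A) : Prop :=
  ∃ t, TT X t ∧ ∃ η ∈ X ^ n, ∃ s, w = t ++ (η ++ s)
def SF (X : Language A) (t : List A) : Prop := ∃ s, s ++ t ∈ X∗
def EE (X : Language A) (n : ℕ) (w : List A) : Prop :=
  PreE (X ^ n) w ∧ SufE (X ^ (3 * n)) w ∧ w ∉ X∗ ∧ ¬ NN X n w ∧ ∃ t, SF X t ∧ t ++ w ∈ X ^ (4 * n)
def EA (X : Language A) (n : ℕ) (w : List A) : Prop := ∃ w₀, EE X n w₀ ∧ ∃ s, w = w₀ ++ s
def MM (X : Language A) (n : ℕ) (w : List A) : Prop :=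
  (w ∈ X∗ ∨ (PreE (X ^ n) w ∧ SufE (X ^ (5 * n)) w)) ∧ ¬ NN X n w ∧ ¬ EA X n w

variable {X : Language A} {n : ℕ}

theorem split_pow {a b m : ℕ} (h : a + b = m) {ξ : List A} (hξ : ξ ∈ X ^ m) :
    ∃ ξ₁ ∈ X ^ a, ∃ ξ₂ ∈ X ^ b, ξ = ξ₁ ++ ξ₂ := by
  rw [← h, pow_add] at hξ
  obtain ⟨ξ₁, h₁, ξ₂, h₂, rfl⟩ := Language.mem_mul.1 hξ
  exact ⟨ξ₁, h₁, ξ₂, h₂, rfl⟩

theorem OneSide.syncL (h : OneSide X n) {m : ℕ} (hm : n ≤ m) {ξ : List A} (hξ : ξ ∈ X ^ m)
    {u v : List A} (huv : u ++ ξ ++ v ∈ X∗) : u ++ ξ ∈ X∗ := by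
  obtain ⟨ξ₁, h₁, ξ₂, h₂, rfl⟩ := split_pow (a := n) (b := m - n) (by omega) hξ
  have := h.sync ξ₁ h₁ u (ξ₂ ++ v) (by simpa [List.append_assoc] using huv)
  rw [← List.append_assoc]
  exact kstar_append this (pow_le_kstar h₂)

theorem OneSide.sufL (h : OneSide X n) {m : ℕ} (hm : n ≤ m) {w : List A}
    (hw : SufE (X ^ m) w) {u s : List A} (hus : u ++ (w ++ s) ∈ X∗) : u ++ w ∈ X∗ := by
  obtain ⟨ξ, hξ, r, rfl⟩ := hw
  have := h.syncL hm hξ (u := u ++ r) (v := s) (by simpa [List.append_assoc] using hus)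
  simpa [List.append_assoc] using this

theorem OneSide.sufL' (h : OneSide X n) {m : ℕ} (hm : n ≤ m) {w : List A}
    (hw : SufE (X ^ m) w) {s : List A} (hus : w ++ s ∈ X∗) : w ∈ X∗ := by
  have := h.sufL hm hw (u := []) (s := s) (by simpa using hus)
  simpa using this

theorem suf_mono {k m : ℕ} (hkm : k ≤ m) {w : List A} (hw : SufE (X ^ m) w) :
    SufE (X ^ k) w := by
  obtain ⟨ξ, hξ, r, rfl⟩ := hw
  obtain ⟨ξ₁, h₁, ξ₂, h₂, rfl⟩ := split_pow (a := m - k) (b := k) (by omega) hξ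
  exact ⟨ξ₂, h₂, r ++ ξ₁, by simp⟩

theorem pre_mono {k m : ℕ} (hkm : k ≤ m) {w : List A} (hw : PreE (X ^ m) w) :
    PreE (X ^ k) w := by
  obtain ⟨ξ, hξ, r, rfl⟩ := hw
  obtain ⟨ξ₁, h₁, ξ₂, h₂, rfl⟩ := split_pow (a := k) (b := m - k) (by omega) hξ
  exact ⟨ξ₁, h₁, ξ₂ ++ r, by simp⟩

theorem preE_kstar_append {m : ℕ} {f w : List A} (hf : f ∈ X∗) (hw : PreE (X ^ m) w) :
    PreE (X ^ m) (f ++ w) := by
  obtain ⟨ξ, hξ, s, rfl⟩ := hw
  obtain ⟨ξ', hξ', s', h'⟩ := pre_pow m hf hξ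
  exact ⟨ξ', hξ', s' ++ s, by rw [← List.append_assoc, h', List.append_assoc]⟩

theorem sufE_kstar_append {m : ℕ} {f w : List A} (hf : f ∈ X∗) (hw : SufE (X ^ m) w) :
    SufE (X ^ m) (w ++ f) := by
  obtain ⟨ξ, hξ, s, rfl⟩ := hw
  obtain ⟨ξ', hξ', s', h'⟩ := suf_pow m hf hξ
  exact ⟨ξ', hξ', s ++ s', by rw [List.append_assoc, h', List.append_assoc]⟩

/-- a version of `pre_pow` which also says that the remainder is in `X∗` -/
theorem pre_pow' (m : ℕ) {f ξ : List A} (hf : f ∈ X∗) (hξ : ξ ∈ X ^ m) :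
    ∃ α ∈ X ^ m, ∃ β ∈ X∗, f ++ ξ = α ++ β := by
  obtain ⟨L, rfl, hL⟩ := Language.mem_kstar.1 hf
  obtain ⟨S, rfl, hlen, hS⟩ := Language.mem_pow.1 hξ
  have hmem : ∀ y ∈ L ++ S, y ∈ X := by
    intro y hy
    rcases List.mem_append.1 hy with h | h
    · exact hL _ h
    · exact hS _ h
  refine ⟨((L ++ S).take m).flatten, ?_, ((L ++ S).drop m).flatten, ?_, ?_⟩
  · rw [Language.mem_pow]
    refine ⟨(L ++ S).take m, rfl, ?_, ?_⟩
    · rw [List.length_take, List.length_append, hlen]; omega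
    · intro y hy
      exact hmem y (List.mem_of_mem_take hy)
  · apply join_mem_kstar
    intro y hy
    exact hmem y (List.mem_of_mem_drop hy)
  · rw [← List.flatten_append, ← List.flatten_append, List.take_append_drop]

theorem OneSide.notNN_of_mem (h : OneSide X n) {w : List A} (hw : w ∈ X∗) : ¬ NN X n w := by
  rintro ⟨t, ⟨ht, u, hu, hut⟩, η, hη, s, rfl⟩
  have h1 : t ++ η ∈ X∗ := h.syncL le_rfl hη (v := s) (by simpa [List.append_assoc] using hw)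
  exact ht (stable_of_code h.code hu (pow_le_kstar hη) hut h1)

theorem OneSide.EE_append (h : OneSide X n) {w s : List A} (hw : EE X n w) : w ++ s ∉ X∗ := by
  intro hws
  exact hw.2.2.1 (h.sufL' (m := 3 * n) (by omega) hw.2.1 hws)

theorem OneSide.notEA_of_mem (h : OneSide X n) {w : List A} (hw : w ∈ X∗) : ¬ EA X n w := by
  rintro ⟨w₀, hw₀, s, rfl⟩
  exact h.EE_append hw₀ hw

theorem OneSide.MM_of_mem (h : OneSide X n) {w : List A} (hw : w ∈ X∗) : MM X n w :=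
  ⟨Or.inl hw, h.notNN_of_mem hw, h.notEA_of_mem hw⟩

theorem NN_append {w : List A} (h : NN X n w) (s : List A) : NN X n (w ++ s) := by
  obtain ⟨t, ht, η, hη, s', rfl⟩ := h
  exact ⟨t, ht, η, hη, s' ++ s, by simp⟩

theorem EA_append {w : List A} (h : EA X n w) (s : List A) : EA X n (w ++ s) := by
  obtain ⟨w₀, hw₀, s', rfl⟩ := h
  exact ⟨w₀, hw₀, s' ++ s, by simp⟩

theorem OneSide.F2 (h : OneSide X n) {k : ℕ} (hk : 2 * n ≤ k) {m u w : List A}
    (hN : ¬ NN X n m) (hm : SufE (X ^ k) m) (hu : u ∈ X∗) (hum : u ++ (m ++ w) ∈ X∗) :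
    m ∈ X∗ := by
  obtain ⟨ξ, hξ, r, rfl⟩ := hm
  obtain ⟨ξ₁, h₁, ξ₂, h₂, rfl⟩ := split_pow (a := k - n) (b := n) (by omega) hξ
  have h3 : u ++ (r ++ ξ₁) ∈ X∗ := by
    have := h.syncL (m := k - n) (by omega) h₁ (u := u ++ r) (v := ξ₂ ++ w)
      (by simpa [List.append_assoc] using hum)
    simpa [List.append_assoc] using this
  by_cases h4 : r ++ ξ₁ ∈ X∗
  · rw [← List.append_assoc]
    exact kstar_append h4 (pow_le_kstar h₂)
  · exfalso
    apply hN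
    exact ⟨r ++ ξ₁, ⟨h4, u, hu, h3⟩, ξ₂, h₂, [], by simp⟩

/-- product of two elements of the monoid is not in `N` -/
theorem OneSide.notNN_mul (h : OneSide X n) {m₁ m₂ : List A}
    (h₁ : m₁ ∈ X∗ ∨ SufE (X ^ (5 * n)) m₁) (h₁' : ¬ NN X n m₁)
    (h₂ : m₂ ∈ X∗ ∨ PreE (X ^ n) m₂) (h₂' : ¬ NN X n m₂) : ¬ NN X n (m₁ ++ m₂) := by
  rintro ⟨t, ⟨ht, u, hu, hut⟩, η, hη, s, heq⟩
  rcases List.append_eq_append_iff.1 heq with ⟨c, hc, hc'⟩ | ⟨c, hc, hc'⟩
  · -- t = m₁ ++ c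
    by_cases hm : m₁ ∈ X∗
    · apply h₂'
      refine ⟨c, ⟨?_, u ++ m₁, kstar_append hu hm, ?_⟩, η, hη, s, hc'⟩
      · intro hcF
        apply ht; rw [hc]; exact kstar_append hm hcF
      · rw [List.append_assoc, ← hc]; exact hut
    · apply hm
      refine h.F2 (k := 5 * n) (by omega) h₁' (h₁.resolve_left hm) hu (w := c) ?_
      rw [← hc]; exact hut
  · -- m₁ = t ++ c, η ++ s = c ++ m₂
    rcases List.append_eq_append_iff.1 hc' with ⟨c', hd, hd'⟩ | ⟨c', hd, hd'⟩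
    · -- c = η ++ c'
      apply h₁'
      exact ⟨t, ⟨ht, u, hu, hut⟩, η, hη, c', by rw [hc, hd]⟩
    · -- η = c ++ c', m₂ = c' ++ s
      by_cases hm : m₁ ∈ X∗
      · by_cases hm2 : m₂ ∈ X∗
        · exact h.notNN_of_mem (kstar_append hm hm2) ⟨t, ⟨ht, u, hu, hut⟩, η, hη, s, heq⟩
        · obtain ⟨ζ, hζ, z, hz⟩ := h₂.resolve_left hm2
          rw [hd'] at hz
          rcases List.append_eq_append_iff.1 hz with ⟨a, ha, ha'⟩ | ⟨a, ha, ha'⟩
          · -- ζ = c' ++ a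
            apply h.notNN_of_mem (kstar_append hm (pow_le_kstar hζ))
            refine ⟨t, ⟨ht, u, hu, hut⟩, η, hη, a, ?_⟩
            rw [hc, ha, hd]; simp
          · -- c' = ζ ++ a
            have h5 : c ++ ζ ∈ X∗ := by
              refine h.syncL le_rfl hζ (v := a) ?_
              rw [List.append_assoc, ← ha, ← hd]
              exact pow_le_kstar hη
            have h6 : t ++ (c ++ ζ) ∈ X∗ := by
              rw [← List.append_assoc, ← hc]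
              exact kstar_append hm (pow_le_kstar hζ)
            exact ht (stable_of_code h.code hu h5 hut h6)
      · apply hm
        refine h.F2 (k := 5 * n) (by omega) h₁' (h₁.resolve_left hm) hu (w := c') ?_
        have e : u ++ (m₁ ++ c') = (u ++ t) ++ η := by rw [hc, hd]; simp
        rw [e]
        exact kstar_append hut (pow_le_kstar hη)

/-- C1': elements of the monoid not in `X∗` cannot be completed on the left to `X∗` by a word of
`Suff (X∗)` -/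
theorem OneSide.C1 (h : OneSide X n) {m t : List A} (hm : MM X n m) (hmF : m ∉ X∗)
    (ht : SF X t) : t ++ m ∉ X∗ := by
  intro htm
  obtain ⟨hm0, hmN, hmE⟩ := hm
  obtain ⟨hpre, hsuf⟩ := hm0.resolve_left hmF
  obtain ⟨s₀, hs₀⟩ := ht
  obtain ⟨ξ, hξ, r, hr⟩ := hsuf
  obtain ⟨ξ₁, h₁, ξ₂, h₂, hξe⟩ := split_pow (a := n) (b := 4 * n) (by omega) hξ
  have h3 : t ++ r ++ ξ₁ ∈ X∗ := by
    refine h.syncL le_rfl h₁ (v := ξ₂) ?_
    rw [hr, hξe] at htm
    simpa [List.append_assoc] using htm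
  obtain ⟨α, hα, β, hβ, hαβ⟩ := pre_pow' (4 * n) h3 h₂
  obtain ⟨α₁, ha₁, α₂, ha₂, hαe⟩ := split_pow (a := n) (b := 3 * n) (by omega) hα
  have e : t ++ m = α₁ ++ (α₂ ++ β) := by
    rw [hr, hξe, ← List.append_assoc α₁, ← hαe, ← hαβ]; simp
  rcases List.append_eq_append_iff.1 e with ⟨b, hb, hb'⟩ | ⟨b, hb, hb'⟩
  · -- α₁ = t ++ b, m = b ++ (α₂ ++ β)
    apply hmE
    refine ⟨b ++ α₂, ⟨?_, ⟨α₂, ha₂, b, rfl⟩, ?_, ?_, t, ⟨s₀, hs₀⟩, ?_⟩, β, by rw [hb']; simp⟩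
    · obtain ⟨ζ, hζ, z, hz⟩ := hpre
      rw [hb', ← List.append_assoc] at hz
      rcases List.append_eq_append_iff.1 hz with ⟨c, hc, hc'⟩ | ⟨c, hc, hc'⟩
      · -- ζ = (b ++ α₂) ++ c
        exfalso
        have h4 : b ++ α₂ ∈ X∗ := by
          refine h.sufL' (m := 3 * n) (by omega) ⟨α₂, ha₂, b, rfl⟩ (s := c) ?_
          rw [← hc]; exact pow_le_kstar hζ
        apply hmF
        rw [hb', ← List.append_assoc]
        exact kstar_append h4 hβ
      · exact ⟨ζ, hζ, c, hc⟩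
    · intro h4
      apply hmF
      rw [hb', ← List.append_assoc]
      exact kstar_append h4 hβ
    · intro h4
      apply hmN
      rw [hb', ← List.append_assoc]
      exact NN_append h4 _
    · rw [← List.append_assoc, ← hb, ← hαe]; exact hα
  · -- t = α₁ ++ b
    apply hmF
    have h5 : s₀ ++ α₁ ∈ X∗ := by
      refine h.syncL le_rfl ha₁ (v := b) ?_
      rw [List.append_assoc, ← hb]; exact hs₀
    refine h.F2 (k := 5 * n) (by omega) hmN ⟨ξ, hξ, r, hr⟩ hs₀ (w := []) ?_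
    rw [List.append_nil, List.append_assoc, e, ← List.append_assoc]
    exact kstar_append h5 (kstar_append (pow_le_kstar ha₂) hβ)

end Pool.Agent.Helper75
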