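import Pool.Agent.Helper75.SyncOne

/-! The one-sided construction: monoid and stability. -/

namespace Pool.Agent.Helper75

open Language Set Codes
open scoped Computability

universe u
variable {A : Type u} {X : Language A} {n : ℕ}

theorem OneSide.notEA_mul (h : OneSide X n) {m₁ m₂ : List A} (h₁ : MM X n m₁) (h₂ : MM X n m₂) :
    ¬ EA X n (m₁ ++ m₂) := by
  rintro ⟨w, hw, s, heq⟩
  rcases List.append_eq_append_iff.1 heq with ⟨c, hc, hc'⟩ | ⟨c, hc, hc'⟩
  swap
  · exact h₁.2.2 ⟨w, hw, c, hc⟩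
  -- w = m₁ ++ c, m₂ = c ++ s
  obtain ⟨hwP, hwS, hwF, hwN, t, ⟨s₀, hs₀⟩, htw⟩ := id hw
  have htwF : t ++ w ∈ X∗ := pow_le_kstar htw
  by_cases hm : m₁ ∈ X∗
  · have hcF : c ∉ X∗ := fun hcF => hwF (by rw [hc]; exact kstar_append hm hcF)
    have hcN : ¬ NN X n c := fun hcN => h₂.2.1 (by rw [hc']; exact NN_append hcN _)
    have hm2 : m₂ ∉ X∗ := by
      intro hm2
      apply h.EE_append hw (s := s)
      rw [← heq]; exact kstar_append hm hm2
    have hm2P : PreE (X ^ n) m₂ := (h₂.1.resolve_left hm2).1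
    have hcP : PreE (X ^ n) c := by
      obtain ⟨ζ, hζ, z, hz⟩ := hm2P
      rw [hc'] at hz
      rcases List.append_eq_append_iff.1 hz with ⟨a, ha, ha'⟩ | ⟨a, ha, ha'⟩
      · -- ζ = c ++ a
        exfalso
        apply h.EE_append hw (s := a)
        rw [hc, List.append_assoc, ← ha]
        exact kstar_append hm (pow_le_kstar hζ)
      · exact ⟨ζ, hζ, a, ha⟩
    have hst : s₀ ++ (t ++ m₁) ∈ X∗ := by
      rw [← List.append_assoc]; exact kstar_append hs₀ hm
    have htc : (t ++ m₁) ++ c ∈ X ^ (4 * n) := by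
      rw [List.append_assoc, ← hc]; exact htw
    have hcS : SufE (X ^ (3 * n)) c := by
      obtain ⟨α, hα, β, hβ, hαβ⟩ := split_pow (a := n) (b := 3 * n) (by omega) htc
      rcases List.append_eq_append_iff.1 hαβ with ⟨b, hb, hb'⟩ | ⟨b, hb, hb'⟩
      · -- α = t' ++ b, c = b ++ β
        exact ⟨β, hβ, b, hb'⟩
      · -- t' = α ++ b, β = b ++ c
        exfalso
        apply hcF
        have h5 : s₀ ++ α ∈ X∗ := by
          refine h.syncL le_rfl hα (v := b) ?_
          rw [List.append_assoc, ← hb]; exact hst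
        have h6 : s₀ ++ (t ++ m₁) ++ (c ++ []) ∈ X∗ := by
          rw [List.append_nil, List.append_assoc, hαβ, ← List.append_assoc]
          exact kstar_append h5 (pow_le_kstar hβ)
        -- c has a suffix in X ^ (2n)
        obtain ⟨ρ, hρ, w₁, hw₁⟩ := hwS
        obtain ⟨ρ₁, hρ₁, ρ₂, hρ₂, hρe⟩ := split_pow (a := n) (b := 2 * n) (by omega) hρ
        have e2 : m₁ ++ c = (w₁ ++ ρ₁) ++ ρ₂ := by
          rw [← hc, hw₁, hρe]; simp
        rcases List.append_eq_append_iff.1 e2 with ⟨d, hd, hd'⟩ | ⟨d, hd, hd'⟩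
        · -- w₁ ++ ρ₁ = m₁ ++ d, c = d ++ ρ₂
          exact h.F2 (k := 2 * n) le_rfl hcN ⟨ρ₂, hρ₂, d, hd'⟩ hst (w := [])
            (by rw [← List.append_assoc] at h6 ⊢; exact h6)
        · -- m₁ = (w₁ ++ ρ₁) ++ d
          exfalso
          have h7 : w₁ ++ ρ₁ ∈ X∗ := h.syncL le_rfl hρ₁ (v := d) (by rw [← hd]; exact hm)
          apply hwF
          rw [hw₁, hρe, ← List.append_assoc]
          exact kstar_append h7 (pow_le_kstar hρ₂)
    apply h₂.2.2
    exact ⟨c, ⟨hcP, hcS, hcF, hcN, t ++ m₁, ⟨s₀, hst⟩, htc⟩, s, hc'⟩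
  · have h3 : t ++ m₁ ∉ X∗ := h.C1 h₁ hm ⟨s₀, hs₀⟩
    apply h3
    refine h.sufL (m := 5 * n) (by omega) (h₁.1.resolve_left hm).2 (s := c) ?_
    rw [← hc]; exact htwF

theorem OneSide.MM_mul (h : OneSide X n) {m₁ m₂ : List A} (h₁ : MM X n m₁) (h₂ : MM X n m₂) :
    MM X n (m₁ ++ m₂) := by
  refine ⟨?_, ?_, h.notEA_mul h₁ h₂⟩
  · rcases h₁.1 with a | ⟨a, a'⟩
    · rcases h₂.1 with b | ⟨b, b'⟩
      · exact Or.inl (kstar_append a b)
      · exact Or.inr ⟨preE_kstar_append a b, sufE_append b' _⟩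
    · rcases h₂.1 with b | ⟨b, b'⟩
      · exact Or.inr ⟨preE_append a _, sufE_kstar_append b a'⟩
      · exact Or.inr ⟨preE_append a _, sufE_append b' _⟩
  · exact h.notNN_mul (h₁.1.imp_right And.right) h₁.2.1 (h₂.1.imp_right And.left) h₂.2.1

theorem OneSide.F1 (h : OneSide X n) {u w : List A} (hu : MM X n u) (huw : u ++ w ∈ X∗) :
    u ∈ X∗ := by
  by_contra hcon
  exact hcon (h.sufL' (m := 5 * n) (by omega) (hu.1.resolve_left hcon).2 huw)

theorem OneSide.caseA (h : OneSide X n) {u w v : List A} (hu : MM X n u) (hv : MM X n v)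
    (huw : u ++ w ∈ X∗) (hwv : w ++ v ∈ X∗) : w ∈ X∗ := by
  have hu' := h.F1 hu huw
  by_cases hv' : v ∈ X∗
  · exact stable_of_code h.code hu' hv' huw hwv
  · obtain ⟨ζ, hζ, z, rfl⟩ := (hv.1.resolve_left hv').1
    refine stable_of_code h.code hu' (pow_le_kstar hζ) huw ?_
    exact h.syncL le_rfl hζ (v := z) (by simpa [List.append_assoc] using hwv)

theorem OneSide.caseB (h : OneSide X n) {u w v : List A} (hu : MM X n u) (hv : MM X n v)
    (huw : u ++ w ∈ X∗) (hwv : MM X n (w ++ v)) : w ∈ X∗ := by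
  have hu' := h.F1 hu huw
  by_cases hwv' : w ++ v ∈ X∗
  · exact h.caseA hu hv huw hwv'
  by_contra hw
  by_cases hv' : v ∈ X∗
  · apply hwv'
    refine h.F2 (k := 5 * n) (by omega) hwv.2.1 (hwv.1.resolve_left hwv').2 hu' (w := []) ?_
    rw [List.append_nil, ← List.append_assoc]
    exact kstar_append huw hv'
  · obtain ⟨ζ, hζ, z, rfl⟩ := (hv.1.resolve_left hv').1
    exact hwv.2.1 ⟨w, ⟨hw, u, hu', huw⟩, ζ, hζ, z, rfl⟩

theorem OneSide.caseB' (h : OneSide X n) {u w v : List A} (hu : MM X n u) (hv : MM X n v)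
    (huw : MM X n (u ++ w)) (hwv : w ++ v ∈ X∗) : w ∈ X∗ := by
  obtain ⟨v', hv', hwv'⟩ : ∃ v' ∈ X∗, w ++ v' ∈ X∗ := by
    by_cases hvF : v ∈ X∗
    · exact ⟨v, hvF, hwv⟩
    · obtain ⟨ζ, hζ, z, rfl⟩ := (hv.1.resolve_left hvF).1
      exact ⟨ζ, pow_le_kstar hζ,
        h.syncL le_rfl hζ (v := z) (by simpa [List.append_assoc] using hwv)⟩
  by_cases huwF : u ++ w ∈ X∗
  · exact stable_of_code h.code (h.F1 hu huwF) hv' huwF hwv'
  obtain ⟨ξ, hξ, s, hs⟩ := (huw.1.resolve_left huwF).2
  by_cases huF : u ∈ X∗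
  · exfalso
    apply huwF
    rw [hs]
    refine h.syncL (m := 5 * n) (by omega) hξ (v := v') ?_
    rw [← hs, List.append_assoc]
    exact kstar_append huF hwv'
  · obtain ⟨η, hη, r, hr⟩ := (hu.1.resolve_left huF).2
    have e : r ++ (η ++ w) = s ++ ξ := by
      rw [← hs, hr]; simp
    rcases List.append_eq_append_iff.1 e with ⟨c, hc, hc'⟩ | ⟨c, hc, hc'⟩
    · -- s = r ++ c, η ++ w = c ++ ξ
      have h1 : η ++ w ∈ X∗ := by
        rw [hc']
        refine h.syncL (m := 5 * n) (by omega) hξ (v := v') ?_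
        rw [← hc', List.append_assoc]
        exact kstar_append (pow_le_kstar hη) hwv'
      exact stable_of_code h.code (pow_le_kstar hη) hv' h1 hwv'
    · -- r = s ++ c, ξ = c ++ (η ++ w)
      have h1 : c ++ η ∈ X∗ := by
        refine h.syncL (m := 5 * n) (by omega) hη (v := w) ?_
        rw [List.append_assoc, ← hc']; exact pow_le_kstar hξ
      refine stable_of_code h.code h1 hv' ?_ hwv'
      rw [List.append_assoc, ← hc']; exact pow_le_kstar hξ

theorem OneSide.stableM (h : OneSide X n) {u w v : List A} (hu : MM X n u) (hv : MM X n v)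
    (huw : MM X n (u ++ w)) (hwv : MM X n (w ++ v)) : MM X n w := by
  by_cases huwF : u ++ w ∈ X∗
  · exact h.MM_of_mem (h.caseB hu hv huwF hwv)
  by_cases hwvF : w ++ v ∈ X∗
  · exact h.MM_of_mem (h.caseB' hu hv huw hwvF)
  have hwN : ¬ NN X n w := fun hN => hwv.2.1 (NN_append hN _)
  have hwE : ¬ EA X n w := fun hN => hwv.2.2 (EA_append hN _)
  obtain ⟨ξ, hξ, s, hs⟩ := (huw.1.resolve_left huwF).2
  obtain ⟨ζ, hζ, z, hz⟩ := (hwv.1.resolve_left hwvF).1
  rcases List.append_eq_append_iff.1 hz with ⟨c, hc, hc'⟩ | ⟨c, hc, hc'⟩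
  · -- ζ = w ++ c
    apply h.MM_of_mem
    rcases List.append_eq_append_iff.1 hs with ⟨b, hb, hb'⟩ | ⟨b, hb, hb'⟩
    · -- s = u ++ b, w = b ++ ξ
      rw [hb']
      refine h.syncL (m := 5 * n) (by omega) hξ (v := c) ?_
      rw [← hb', ← hc]; exact pow_le_kstar hζ
    · -- u = s ++ b, ξ = b ++ w
      by_cases huF : u ∈ X∗
      · exfalso
        apply huwF
        rw [hs]
        refine h.syncL (m := 5 * n) (by omega) hξ (v := c) ?_
        rw [← hs, List.append_assoc, ← hc]
        exact kstar_append huF (pow_le_kstar hζ)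
      · obtain ⟨η, hη, r, hr⟩ := (hu.1.resolve_left huF).2
        rw [hb] at hr
        rcases List.append_eq_append_iff.1 hr with ⟨b', hd, hd'⟩ | ⟨b', hd, hd'⟩
        · -- r = s ++ b', b = b' ++ η
          have h1 : b ∈ X∗ := by
            rw [hd']
            refine h.syncL (m := 5 * n) (by omega) hη (v := w) ?_
            rw [← hd', ← hb']; exact pow_le_kstar hξ
          refine h.caseB (h.MM_of_mem h1) hv ?_ hwv
          rw [← hb']; exact pow_le_kstar hξ
        · -- s = r ++ b', η = b' ++ b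
          have h1 : b' ++ ξ ∈ X∗ := by
            refine h.syncL (m := 5 * n) (by omega) hξ (v := c) ?_
            have e : b' ++ ξ ++ c = η ++ ζ := by rw [hb', hd', hc]; simp
            rw [e]
            exact kstar_append (pow_le_kstar hη) (pow_le_kstar hζ)
          refine h.caseB (u := η) (h.MM_of_mem (pow_le_kstar hη)) hv ?_ hwv
          rw [hd', List.append_assoc, ← hb']; exact h1
  · -- w = ζ ++ c
    have hwP : PreE (X ^ n) w := ⟨ζ, hζ, c, hc⟩
    rcases List.append_eq_append_iff.1 hs with ⟨b, hb, hb'⟩ | ⟨b, hb, hb'⟩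
    · exact ⟨Or.inr ⟨hwP, ⟨ξ, hξ, b, hb'⟩⟩, hwN, hwE⟩
    · -- u = s ++ b, ξ = b ++ w
      apply h.MM_of_mem
      by_contra hwF
      -- facts about b
      have hξF : b ++ w ∈ X∗ := by rw [← hb']; exact pow_le_kstar hξ
      have hbnot : b ∉ X∗ := fun hbF => hwF (h.caseB (h.MM_of_mem hbF) hv hξF hwv)
      obtain ⟨α, hα, β, hβ, hαβ⟩ := split_pow (a := 4 * n) (b := n) (by omega) hξ
      obtain ⟨α₁, ha₁, α₂, ha₂, hαe⟩ := split_pow (a := n) (b := 3 * n) (by omega) hα
      have e : b ++ w = α₁ ++ (α₂ ++ β) := by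
        rw [← hb', hαβ, hαe]; simp
      rcases List.append_eq_append_iff.1 e with ⟨b', hd, hd'⟩ | ⟨b', hd, hd'⟩
      · -- α₁ = b ++ b', w = b' ++ (α₂ ++ β)
        apply hwE
        have hSFb : SF X b := by
          by_cases huF : u ∈ X∗
          · exact ⟨s, by rw [← hb]; exact huF⟩
          · obtain ⟨η, hη, r, hr⟩ := (hu.1.resolve_left huF).2
            rw [hb] at hr
            rcases List.append_eq_append_iff.1 hr with ⟨b'', hg, hg'⟩ | ⟨b'', hg, hg'⟩
            · -- r = s ++ b'', b = b'' ++ η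
              exfalso
              apply hbnot
              rw [hg']
              refine h.syncL (m := 5 * n) (by omega) hη (v := w) ?_
              rw [← hg', ← hb']; exact pow_le_kstar hξ
            · -- s = r ++ b'', η = b'' ++ b
              exact ⟨b'', by rw [← hg']; exact pow_le_kstar hη⟩
        have hbF : b' ++ α₂ ∉ X∗ := by
          intro h4
          apply hwF
          rw [hd', ← List.append_assoc]
          exact kstar_append h4 (pow_le_kstar hβ)
        refine ⟨b' ++ α₂, ⟨?_, ⟨α₂, ha₂, b', rfl⟩, hbF, ?_, b, hSFb, ?_⟩, β, by rw [hd']; simp⟩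
        · have hz2 : (b' ++ α₂) ++ β = ζ ++ c := by
            rw [← hc, hd']; simp
          rcases List.append_eq_append_iff.1 hz2 with ⟨a, ha, ha'⟩ | ⟨a, ha, ha'⟩
          · -- ζ = (b' ++ α₂) ++ a
            exfalso
            apply hbF
            refine h.sufL' (m := 3 * n) (by omega) ⟨α₂, ha₂, b', rfl⟩ (s := a) ?_
            rw [← ha]; exact pow_le_kstar hζ
          · exact ⟨ζ, hζ, a, ha⟩
        · intro h4
          apply hwN
          rw [hd', ← List.append_assoc]
          exact NN_append h4 _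
        · rw [← List.append_assoc, ← hd, ← hαe]; exact hα
      · -- b = α₁ ++ b', α₂ ++ β = b' ++ w
        by_cases huF : u ∈ X∗
        · apply huwF
          have h5 : s ++ α₁ ∈ X∗ := by
            refine h.syncL le_rfl ha₁ (v := b') ?_
            rw [List.append_assoc, ← hd, ← hb]; exact huF
          rw [hs, hb', e, ← List.append_assoc]
          exact kstar_append h5 (kstar_append (pow_le_kstar ha₂) (pow_le_kstar hβ))
        · obtain ⟨η, hη, r, hr⟩ := (hu.1.resolve_left huF).2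
          rw [hb] at hr
          rcases List.append_eq_append_iff.1 hr with ⟨b'', hg, hg'⟩ | ⟨b'', hg, hg'⟩
          · apply hbnot
            rw [hg']
            refine h.syncL (m := 5 * n) (by omega) hη (v := w) ?_
            rw [← hg', ← hb']; exact pow_le_kstar hξ
          · -- η = b'' ++ b
            apply hwF
            have h5 : b'' ++ α₁ ∈ X∗ := by
              refine h.syncL le_rfl ha₁ (v := b') ?_
              rw [List.append_assoc, ← hd, ← hg']; exact pow_le_kstar hη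
            refine h.caseB (u := η) (h.MM_of_mem (pow_le_kstar hη)) hv ?_ hwv
            rw [hg', List.append_assoc, e, ← List.append_assoc]
            exact kstar_append h5 (kstar_append (pow_le_kstar ha₂) (pow_le_kstar hβ))

end Pool.Agent.Helper75
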