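import Pool.Agent.Helper75.SyncOneB

/-! The one-sided construction: density, regularity and the main theorem. -/

namespace Pool.Agent.Helper75

open Language Set Codes
open scoped Computability

universe u
variable {A : Type u} {X : Language A} {n : ℕ}

/-- factors of words of `X∗` -/
def Fact (X : Language A) (w : List A) : Prop := ∃ α β, α ++ w ++ β ∈ X∗

theorem OneSide.dense_aux (h : OneSide X n)
    (hall : ∀ p, PreE (X ^ n) p → ¬ Fact X p → NN X n p ∨ EA X n p) :
    ∀ (k : ℕ) (g : List A), g.length ≤ k → ∀ q ∈ X∗, PreE (X ^ n) q → Fact X (q ++ g) := by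
  intro k
  induction k with
  | zero =>
    intro g hg q hq _
    have : g = [] := List.length_eq_zero_iff.1 (Nat.le_zero.1 hg)
    subst this
    exact ⟨[], [], by simpa using hq⟩
  | succ k ih =>
    intro g hg q hq hqP
    by_contra hcon
    rcases hall _ (preE_append hqP g) hcon with ⟨t, ⟨ht, u, hu, hut⟩, η, hη, s, heq⟩ |
      ⟨w₀, hw₀, s, heq⟩
    · have heq' : q ++ g = (t ++ η) ++ s := by rw [heq]; simp
      rcases List.append_eq_append_iff.1 heq' with ⟨c, hc, hc'⟩ | ⟨c, hc, hc'⟩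
      · -- t ++ η = q ++ c, g = c ++ s
        have hc0 : c ≠ [] := by
          rintro rfl
          rw [List.append_nil] at hc
          apply h.notNN_of_mem hq
          exact ⟨t, ⟨ht, u, hu, hut⟩, η, hη, [], by rw [← hc]; simp⟩
        have hlen : s.length ≤ k := by
          have h1 : 0 < c.length := List.length_pos_iff.2 hc0
          have h2 : g.length = c.length + s.length := by rw [hc', List.length_append]
          omega
        have hF : (u ++ t) ++ η ∈ X∗ := kstar_append hut (pow_le_kstar hη)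
        have hP : PreE (X ^ n) ((u ++ t) ++ η) := pre_pow n hut hη
        obtain ⟨α, β, hαβ⟩ := ih s hlen _ hF hP
        apply hcon
        refine ⟨α ++ u, β, ?_⟩
        rw [heq']
        simpa [List.append_assoc] using hαβ
      · -- q = (t ++ η) ++ c
        apply h.notNN_of_mem hq
        exact ⟨t, ⟨ht, u, hu, hut⟩, η, hη, c, by rw [hc]; simp⟩
    · rcases List.append_eq_append_iff.1 heq with ⟨c, hc, hc'⟩ | ⟨c, hc, hc'⟩
      · -- w₀ = q ++ c, g = c ++ s
        have hc0 : c ≠ [] := by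
          rintro rfl
          rw [List.append_nil] at hc
          exact hw₀.2.2.1 (by rw [hc]; exact hq)
        have hlen : s.length ≤ k := by
          have h1 : 0 < c.length := List.length_pos_iff.2 hc0
          have h2 : g.length = c.length + s.length := by rw [hc', List.length_append]
          omega
        obtain ⟨t, -, htw⟩ := hw₀.2.2.2.2
        have hF : t ++ w₀ ∈ X∗ := pow_le_kstar htw
        have hP : PreE (X ^ n) (t ++ w₀) :=
          pre_mono (m := 4 * n) (by omega) ⟨_, htw, [], by simp⟩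
        obtain ⟨α, β, hαβ⟩ := ih s hlen _ hF hP
        apply hcon
        refine ⟨α ++ t, β, ?_⟩
        rw [heq]
        simpa [List.append_assoc] using hαβ
      · -- q = w₀ ++ c
        exact h.EE_append hw₀ (s := c) (by rw [← hc]; exact hq)

theorem exists_pow {x₀ : List A} (hx₀ : x₀ ∈ X) (m : ℕ) : ∃ p, p ∈ X ^ m := by
  refine ⟨(List.replicate m x₀).flatten, ?_⟩
  rw [Language.mem_pow]
  refine ⟨List.replicate m x₀, rfl, by simp, ?_⟩
  intro y hy
  rw [List.eq_of_mem_replicate hy]; exact hx₀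

theorem OneSide.dense (h : OneSide X n) {x₀ : List A} (hx₀ : x₀ ∈ X) (w : List A) :
    ∃ p q, MM X n (p ++ w ++ q) := by
  by_cases hall : ∀ p, PreE (X ^ n) p → ¬ Fact X p → NN X n p ∨ EA X n p
  · obtain ⟨ζ, hζ⟩ := exists_pow hx₀ n
    obtain ⟨α, β, hαβ⟩ := h.dense_aux hall _ w le_rfl ζ (pow_le_kstar hζ)
      ⟨ζ, hζ, [], by simp⟩
    refine ⟨α ++ ζ, β, h.MM_of_mem ?_⟩
    simpa [List.append_assoc] using hαβ
  · push Not at hall
    obtain ⟨p, hp, hpF, hpN, hpE⟩ := hall
    obtain ⟨ξ, hξ⟩ := exists_pow hx₀ (5 * n)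
    refine ⟨p, ξ, Or.inr ⟨?_, ⟨ξ, hξ, p ++ w, rfl⟩⟩, ?_, ?_⟩
    · rw [List.append_assoc]; exact preE_append hp _
    · rintro ⟨t, ⟨ht, u, hu, hut⟩, η, hη, s, heq⟩
      have heq' : p ++ (w ++ ξ) = (t ++ η) ++ s := by
        rw [← List.append_assoc, heq]; simp
      rcases List.append_eq_append_iff.1 heq' with ⟨c, hc, hc'⟩ | ⟨c, hc, hc'⟩
      · -- t ++ η = p ++ c
        apply hpF
        refine ⟨u, c, ?_⟩
        rw [List.append_assoc, ← hc, ← List.append_assoc]
        exact kstar_append hut (pow_le_kstar hη)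
      · apply hpN
        exact ⟨t, ⟨ht, u, hu, hut⟩, η, hη, c, by rw [hc]; simp⟩
    · rintro ⟨w₀, hw₀, s, heq⟩
      rw [List.append_assoc] at heq
      rcases List.append_eq_append_iff.1 heq with ⟨c, hc, hc'⟩ | ⟨c, hc, hc'⟩
      · apply hpF
        obtain ⟨t, -, htw⟩ := hw₀.2.2.2.2
        refine ⟨t, c, ?_⟩
        rw [List.append_assoc, ← hc]
        exact pow_le_kstar htw
      · exact hpE ⟨w₀, hw₀, c, hc⟩

/-- If `Y` is a code, `Y∗` is dense and words of `Y ^ m` are left-synchronizing, then `Y` is a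
maximal code. -/
theorem maximal_of_dense {Y : Language A} (hY : IsCode Y) {m : ℕ} {y₀ : List A} (hy₀ : y₀ ∈ Y)
    (hdense : ∀ w : List A, ∃ p q, p ++ w ++ q ∈ Y∗)
    (hsync : ∀ ξ ∈ Y ^ m, ∀ u v : List A, u ++ ξ ++ v ∈ Y∗ → u ++ ξ ∈ Y∗) :
    IsMaximalCode Y := by
  refine ⟨hY, ?_⟩
  intro Z hZ hYZ
  apply le_antisymm _ hYZ
  intro z hz
  by_contra hzY
  obtain ⟨ξ, hξ⟩ := exists_pow hy₀ m
  obtain ⟨p, q, hpq⟩ := hdense (ξ ++ z ++ ξ)
  have h1 : p ++ ξ ∈ Y∗ := hsync ξ hξ p (z ++ ξ ++ q) (by simpa [List.append_assoc] using hpq)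
  have h2 : p ++ ξ ++ z ++ ξ ∈ Y∗ :=
    hsync ξ hξ (p ++ ξ ++ z) q (by simpa [List.append_assoc] using hpq)
  obtain ⟨L1, hL1, hL1'⟩ := Language.mem_kstar.1 h1
  obtain ⟨L2, hL2, hL2'⟩ := Language.mem_kstar.1 (pow_le_kstar hξ)
  obtain ⟨L, hL, hL'⟩ := Language.mem_kstar.1 h2
  have heq : L1 ++ [z] ++ L2 = L := by
    apply hZ.2
    · intro w hw
      simp only [List.mem_append, List.mem_singleton] at hw
      rcases hw with (hw | hw) | hw
      · exact hYZ (hL1' _ hw)
      · rw [hw]; exact hz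
      · exact hYZ (hL2' _ hw)
    · intro w hw
      exact hYZ (hL' _ hw)
    · rw [← hL, List.flatten_append, List.flatten_append, ← hL1, ← hL2]
      simp
  have hzL : z ∈ L := by rw [← heq]; simp
  exact hzY (hL' _ hzL)

/-! ### regularity -/

/-- words which can be completed on the left, by a word satisfying `U`, to a word of `L` -/
def leftComp (U : List A → Prop) (L : Language A) : Language A := {w | ∃ u, U u ∧ u ++ w ∈ L}

theorem regular_leftComp (U : List A → Prop) {L : Language A} (hL : L.IsRegular) :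
    (leftComp U L).IsRegular := by
  apply regular_of_finite_invariant (T := Set (Language A))
    (S := 𝒫 (Set.range L.leftQuotient)) hL.finite_range_leftQuotient.finite_subsets
    (fun x => {q | ∃ u, U u ∧ q = L.leftQuotient (u ++ x)})
  · intro x
    rintro q ⟨u, -, rfl⟩
    exact ⟨u ++ x, rfl⟩
  · intro x y hxy
    have key : ∀ x z : List A, x ++ z ∈ leftComp U L ↔
        ∃ q ∈ {q | ∃ u, U u ∧ q = L.leftQuotient (u ++ x)}, z ∈ q := by
      intro x z
      constructor
      · rintro ⟨u, hu, huz⟩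
        refine ⟨_, ⟨u, hu, rfl⟩, ?_⟩
        rw [mem_leftQuotient, List.append_assoc]; exact huz
      · rintro ⟨q, ⟨u, hu, rfl⟩, hz⟩
        refine ⟨u, hu, ?_⟩
        rw [mem_leftQuotient, List.append_assoc] at hz; exact hz
    ext z
    rw [mem_leftQuotient, mem_leftQuotient, key, key]
    have hxy' : {q | ∃ u, U u ∧ q = L.leftQuotient (u ++ x)} =
        {q | ∃ u, U u ∧ q = L.leftQuotient (u ++ y)} := hxy
    rw [hxy']

def langT (X : Language A) : Language A := leftComp (fun u => u ∈ X∗) (X∗) - X∗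
def langN (X : Language A) (n : ℕ) : Language A := langT X * (X ^ n * ⊤)
def langP (X : Language A) (m : ℕ) : Language A := X ^ m * ⊤
def langS (X : Language A) (m : ℕ) : Language A := ⊤ * X ^ m
def langE (X : Language A) (n : ℕ) : Language A :=
  (((langP X n ⊓ langS X (3 * n)) ⊓ leftComp (SF X) (X ^ (4 * n))) - X∗) - langN X n
def langM (X : Language A) (n : ℕ) : Language A :=
  ((X∗ + (langP X n ⊓ langS X (5 * n))) - langN X n) - langE X n * ⊤

theorem mem_langP {m : ℕ} {w : List A} : w ∈ langP X m ↔ PreE (X ^ m) w := by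
  rw [langP, Language.mem_mul]
  constructor
  · rintro ⟨a, ha, b, -, rfl⟩
    exact ⟨a, ha, b, rfl⟩
  · rintro ⟨a, ha, b, rfl⟩
    exact ⟨a, ha, b, Set.mem_univ _, rfl⟩

theorem mem_langS {m : ℕ} {w : List A} : w ∈ langS X m ↔ SufE (X ^ m) w := by
  rw [langS, Language.mem_mul]
  constructor
  · rintro ⟨a, -, b, hb, rfl⟩
    exact ⟨b, hb, a, rfl⟩
  · rintro ⟨b, hb, a, rfl⟩
    exact ⟨a, Set.mem_univ _, b, hb, rfl⟩

theorem mem_langT {w : List A} : w ∈ langT X ↔ TT X w := by
  constructor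
  · rintro ⟨⟨u, hu, hu'⟩, h2⟩
    exact ⟨h2, u, hu, hu'⟩
  · rintro ⟨h2, u, hu, hu'⟩
    exact ⟨⟨u, hu, hu'⟩, h2⟩

theorem mem_langN {w : List A} : w ∈ langN X n ↔ NN X n w := by
  rw [langN, Language.mem_mul]
  constructor
  · rintro ⟨t, ht, b, hb, rfl⟩
    obtain ⟨η, hη, s, rfl⟩ := mem_langP.1 hb
    exact ⟨t, mem_langT.1 ht, η, hη, s, rfl⟩
  · rintro ⟨t, ht, η, hη, s, rfl⟩
    exact ⟨t, mem_langT.2 ht, η ++ s, mem_langP.2 ⟨η, hη, s, rfl⟩, rfl⟩

theorem mem_langE {w : List A} : w ∈ langE X n ↔ EE X n w := by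
  constructor
  · rintro ⟨⟨⟨⟨h1, h2⟩, h3⟩, h4⟩, h5⟩
    exact ⟨mem_langP.1 h1, mem_langS.1 h2, h4, fun h => h5 (mem_langN.2 h), h3⟩
  · rintro ⟨h1, h2, h4, h5, h3⟩
    exact ⟨⟨⟨⟨mem_langP.2 h1, mem_langS.2 h2⟩, h3⟩, h4⟩, fun h => h5 (mem_langN.1 h)⟩

theorem mem_langM {w : List A} : w ∈ langM X n ↔ MM X n w := by
  have hEA : w ∈ langE X n * ⊤ ↔ EA X n w := by
    rw [Language.mem_mul]
    constructor
    · rintro ⟨a, ha, b, -, rfl⟩
      exact ⟨a, mem_langE.1 ha, b, rfl⟩
    · rintro ⟨a, ha, b, rfl⟩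
      exact ⟨a, mem_langE.2 ha, b, Set.mem_univ _, rfl⟩
  constructor
  · rintro ⟨⟨h1, h2⟩, h3⟩
    refine ⟨?_, fun h => h2 (mem_langN.2 h), fun h => h3 (hEA.2 h)⟩
    rcases h1 with h1 | ⟨h1, h1'⟩
    · exact Or.inl h1
    · exact Or.inr ⟨mem_langP.1 h1, mem_langS.1 h1'⟩
  · rintro ⟨h1, h2, h3⟩
    refine ⟨⟨?_, fun h => h2 (mem_langN.1 h)⟩, fun h => h3 (hEA.1 h)⟩
    rcases h1 with h1 | ⟨h1, h1'⟩
    · exact Or.inl h1
    · exact Or.inr ⟨mem_langP.2 h1, mem_langS.2 h1'⟩

theorem regular_langM (hX : X.IsRegular) : (langM X n).IsRegular := by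
  have hK := regular_kstar hX
  have hP : ∀ m, (langP X m).IsRegular := fun m => regular_mul (regular_pow hX m) regular_top
  have hS : ∀ m, (langS X m).IsRegular := fun m => regular_mul regular_top (regular_pow hX m)
  have hN : (langN X n).IsRegular :=
    regular_mul (regular_sub (regular_leftComp _ hK) hK) (hP n)
  have hE : (langE X n).IsRegular :=
    regular_sub (regular_sub (((hP n).inf (hS _)).inf (regular_leftComp _ (regular_pow hX _))) hK) hN
  exact regular_sub (regular_sub (hK.add ((hP n).inf (hS _))) hN) (regular_mul hE regular_top)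

/-- the main construction: left-synchronizing version -/
theorem OneSide.completion (h : OneSide X n) (hreg : X.IsRegular) {x₀ : List A} (hx₀ : x₀ ∈ X) :
    ∃ Y : Language A, X ≤ Y ∧ Y.IsRegular ∧ IsMaximalCode Y ∧
      ∀ ξ ∈ Y ^ (5 * n), ∀ u v : List A, u ++ ξ ++ v ∈ Y∗ → u ++ ξ ∈ Y∗ := by
  set M : Language A := langM X n with hM
  have hmem : ∀ w, w ∈ M ↔ MM X n w := fun w => mem_langM
  have hM1 : [] ∈ M := (hmem _).2 (h.MM_of_mem (nil_mem_kstar _))
  have hMmul : ∀ a b, a ∈ M → b ∈ M → a ++ b ∈ M := by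
    intro a b ha hb
    exact (hmem _).2 (h.MM_mul ((hmem _).1 ha) ((hmem _).1 hb))
  have hMst : ∀ u w v : List A, u ∈ M → v ∈ M → u ++ w ∈ M → w ++ v ∈ M → w ∈ M := by
    intro u w v hu hv huw hwv
    exact (hmem _).2 (h.stableM ((hmem _).1 hu) ((hmem _).1 hv) ((hmem _).1 huw)
      ((hmem _).1 hwv))
  have hFM : ∀ w, w ∈ X∗ → w ∈ M := fun w hw => (hmem _).2 (h.MM_of_mem hw)
  have hYstar : (base M)∗ = M := kstar_base hM1 hMmul
  have hcode : IsCode (base M) := isCode_base hM1 hMmul hMst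
  have hle : X ≤ base M := by
    intro x hx
    have hxF : x ∈ X∗ := mem_kstar_of_mem hx
    refine mem_base (hFM _ hxF) ?_ ?_
    · rintro rfl; exact h.code.1 hx
    · intro a b ha hb ha0 hb0 hab
      rw [← hab] at hx hxF
      have ha' : a ∈ X∗ := h.F1 ((hmem _).1 ha) hxF
      have hb' : b ∈ X∗ := by
        by_contra hbF
        apply hbF
        have hbM := (hmem _).1 hb
        exact h.F2 (k := 5 * n) (by omega) hbM.2.1 (hbM.1.resolve_left hbF).2 ha' (w := [])
          (by rw [List.append_nil]; exact hxF)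
      exact code_irred h.code hx ha' hb' ha0 hb0
  -- powers of the base
  have hpow : ∀ k, ∀ x ∈ (base M) ^ k, x ∈ X ^ k ∨ SufE (X ^ (5 * n)) x := by
    intro k
    induction k with
    | zero => intro x hx; left; simpa using hx
    | succ k ih =>
      intro x hx
      rw [pow_succ] at hx
      obtain ⟨a, ha, b, hb, rfl⟩ := Language.mem_mul.1 hx
      have hbM := (hmem _).1 (base_le _ hb)
      by_cases hbF : b ∈ X∗
      · rcases ih a ha with ha' | ha'
        · left
          rw [pow_succ]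
          exact Language.append_mem_mul ha' (mem_base_kstar hFM hb hbF)
        · right
          exact sufE_kstar_append hbF ha'
      · right
        exact sufE_append (hbM.1.resolve_left hbF).2 _
  have hsync : ∀ ξ ∈ (base M) ^ (5 * n), ∀ u v : List A, u ++ ξ ++ v ∈ (base M)∗ →
      u ++ ξ ∈ (base M)∗ := by
    intro ξ hξ u v huv
    have hS : SufE (X ^ (5 * n)) ξ := by
      rcases hpow _ ξ hξ with h' | h'
      · exact ⟨ξ, h', [], by simp⟩
      · exact h'
    have hS' : SufE (X ^ (5 * n)) (u ++ ξ) := sufE_append hS u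
    rw [hYstar, hmem] at huv ⊢
    have hN : ¬ NN X n (u ++ ξ) := fun hN => huv.2.1 (NN_append hN _)
    have hE : ¬ EA X n (u ++ ξ) := fun hN => huv.2.2 (EA_append hN _)
    refine ⟨?_, hN, hE⟩
    rcases huv.1 with h1 | ⟨⟨ζ, hζ, z, hz⟩, -⟩
    · exact Or.inl (h.sufL' (m := 5 * n) (by omega) hS' h1)
    · rcases List.append_eq_append_iff.1 hz with ⟨c, hc, hc'⟩ | ⟨c, hc, hc'⟩
      · -- ζ = (u ++ ξ) ++ c
        left
        refine h.sufL' (m := 5 * n) (by omega) hS' (s := c) ?_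
        rw [← hc]; exact pow_le_kstar hζ
      · exact Or.inr ⟨⟨ζ, hζ, c, hc⟩, hS'⟩
  refine ⟨base M, hle, regular_base (regular_langM hreg), ?_, hsync⟩
  refine maximal_of_dense hcode (m := 5 * n) (hle hx₀) ?_ hsync
  intro w
  obtain ⟨p, q, hpq⟩ := h.dense hx₀ w
  exact ⟨p, q, by rw [hYstar, hmem]; exact hpq⟩

end Pool.Agent.Helper75
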