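import Pool.Agent.Helper75.SyncOneC

/-! Every regular code with bounded synchronization delay is contained in a regular
maximal code with bounded synchronization delay (one-sided notion). -/

namespace Pool.Agent.Helper75

open Language Set Codes
open scoped Computability

universe u
variable {A : Type u}

theorem completion_one_sided (X : Language A) (hX : IsCode X) (hreg : X.IsRegular) (d : ℕ)
    (hd : HasSyncDelay X d) :
    ∃ Y : Language A, X ≤ Y ∧ Y.IsRegular ∧ IsMaximalCode Y ∧ HasSyncDelay Y (10 * d) := by
  by_cases hne : ∃ x₀, x₀ ∈ X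
  · obtain ⟨x₀, hx₀⟩ := hne
    have h : OneSide X (2 * d) := by
      refine ⟨hX, ?_⟩
      intro ξ hξ u v huv
      obtain ⟨ξ₁, h₁, ξ₂, h₂, rfl⟩ := split_pow (a := d) (b := d) (by omega) hξ
      have := hd ξ₁ h₁ ξ₂ h₂ u v (by simpa [List.append_assoc] using huv)
      rw [← List.append_assoc]
      exact kstar_append this (pow_le_kstar h₂)
    obtain ⟨Y, h1, h2, h3, h4⟩ := h.completion hreg hx₀
    refine ⟨Y, h1, h2, h3, ?_⟩
    intro x hx y _ u v huv
    refine h4 x (by rw [← mul_assoc]; exact hx) u (y ++ v) ?_
    simpa [List.append_assoc] using huv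
  · refine ⟨letters A, fun x hx => absurd ⟨x, hx⟩ hne, letters_regular, letters_maximal, ?_⟩
    intro x _ y _ u v _
    exact letters_kstar _

end Pool.Agent.Helper75
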