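import Pool.Agent.Helper75.FreeBase

/-! The completion: `F ∪ (E A* ∩ A* E)` is a stable submonoid. -/

namespace Pool.Agent.Helper75

open Language Set Codes
open scoped Computability

universe u
variable {A : Type u}

/-- words with a left factor in `E` -/
def PreE (E : Language A) (w : List A) : Prop := ∃ ξ ∈ E, ∃ s, w = ξ ++ s
/-- words with a right factor in `E` -/
def SufE (E : Language A) (w : List A) : Prop := ∃ ξ ∈ E, ∃ s, w = s ++ ξ

/-- `F` a stable submonoid, `E` a set of synchronizing words of `F` -/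
structure SyncPair (F E : Language A) : Prop where
  one : [] ∈ F
  mul : ∀ a b, a ∈ F → b ∈ F → a ++ b ∈ F
  stable : ∀ u w v : List A, u ∈ F → v ∈ F → u ++ w ∈ F → w ++ v ∈ F → w ∈ F
  le : ∀ ξ ∈ E, ξ ∈ F
  sync : ∀ ξ ∈ E, ∀ u v : List A, u ++ ξ ++ v ∈ F → u ++ ξ ∈ F ∧ ξ ++ v ∈ F
  fe : ∀ f ∈ F, ∀ ξ ∈ E, PreE E (f ++ ξ)
  ef : ∀ ξ ∈ E, ∀ f ∈ F, SufE E (ξ ++ f)

variable {F E : Language A}

/-- membership in the completed monoid -/
def InM (F E : Language A) (w : List A) : Prop := w ∈ F ∨ (PreE E w ∧ SufE E w)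

theorem preE_append {w : List A} (h : PreE E w) (s : List A) : PreE E (w ++ s) := by
  obtain ⟨ξ, hξ, t, rfl⟩ := h
  exact ⟨ξ, hξ, t ++ s, by simp⟩

theorem sufE_append {w : List A} (h : SufE E w) (s : List A) : SufE E (s ++ w) := by
  obtain ⟨ξ, hξ, t, rfl⟩ := h
  exact ⟨ξ, hξ, s ++ t, by simp⟩

theorem SyncPair.preE_F (h : SyncPair F E) {f w : List A} (hf : f ∈ F) (hw : PreE E w) :
    PreE E (f ++ w) := by
  obtain ⟨ξ, hξ, s, rfl⟩ := hw
  obtain ⟨ξ', hξ', s', h'⟩ := h.fe f hf ξ hξ
  exact ⟨ξ', hξ', s' ++ s, by rw [← List.append_assoc, h', List.append_assoc]⟩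

theorem SyncPair.sufE_F (h : SyncPair F E) {f w : List A} (hf : f ∈ F) (hw : SufE E w) :
    SufE E (w ++ f) := by
  obtain ⟨ξ, hξ, s, rfl⟩ := hw
  obtain ⟨ξ', hξ', s', h'⟩ := h.ef ξ hξ f hf
  exact ⟨ξ', hξ', s ++ s', by rw [List.append_assoc, h', List.append_assoc]⟩

theorem SyncPair.mulM (h : SyncPair F E) {a b : List A} (ha : InM F E a) (hb : InM F E b) :
    InM F E (a ++ b) := by
  rcases ha with ha | ⟨ha, ha'⟩
  · rcases hb with hb | ⟨hb, hb'⟩
    · exact Or.inl (h.mul _ _ ha hb)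
    · exact Or.inr ⟨h.preE_F ha hb, sufE_append hb' _⟩
  · rcases hb with hb | ⟨hb, hb'⟩
    · exact Or.inr ⟨preE_append ha _, h.sufE_F hb ha'⟩
    · exact Or.inr ⟨preE_append ha _, sufE_append hb' _⟩

/-- if `a b ∈ F` with `a` in the monoid then `a ∈ F` -/
theorem SyncPair.left (h : SyncPair F E) {a b : List A} (ha : InM F E a) (hab : a ++ b ∈ F) :
    a ∈ F := by
  rcases ha with ha | ⟨-, ξ, hξ, s, rfl⟩
  · exact ha
  · exact (h.sync ξ hξ s b hab).1

theorem SyncPair.right (h : SyncPair F E) {a b : List A} (hb : InM F E b) (hab : a ++ b ∈ F) :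
    b ∈ F := by
  rcases hb with hb | ⟨⟨ξ, hξ, s, rfl⟩, -⟩
  · exact hb
  · exact (h.sync ξ hξ a s (by rw [List.append_assoc]; exact hab)).2

/-- case `uw ∈ F` -/
theorem SyncPair.caseB (h : SyncPair F E) {u w v : List A} (hu : InM F E u) (hv : InM F E v)
    (huw : u ++ w ∈ F) (hwv : InM F E (w ++ v)) : w ∈ F := by
  have hu' : u ∈ F := h.left hu huw
  rcases hwv with hwv | ⟨⟨ξ, hξ, t, hwt⟩, -⟩
  · exact h.stable u w v hu' (h.right hv hwv) huw hwv
  · rcases hv with hv | ⟨⟨η, hη, t', rfl⟩, -⟩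
    · -- v ∈ F
      have h1 : u ++ ξ ++ t ∈ F := by
        rw [List.append_assoc, ← hwt, ← List.append_assoc]
        exact h.mul _ _ huw hv
      have h2 := (h.sync ξ hξ u t h1).2
      rw [← hwt] at h2
      exact h.stable u w v hu' hv huw h2
    · -- v = η ++ t'
      have h1 : u ++ (w ++ η) ∈ F := by
        rw [← List.append_assoc]
        exact h.mul _ _ huw (h.le _ hη)
      have h2 : w ++ η ∈ F := by
        rw [← List.append_assoc] at hwt
        rcases List.append_eq_append_iff.1 hwt with ⟨c, hc, hc'⟩ | ⟨c, hc, hc'⟩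
        · -- ξ = w ++ η ++ c
          have : w ++ η ++ c ∈ F := by rw [← hc]; exact h.le _ hξ
          exact (h.sync η hη w c this).1
        · -- w ++ η = ξ ++ c
          have : u ++ ξ ++ c ∈ F := by
            rw [List.append_assoc, ← hc]; exact h1
          rw [hc]
          exact (h.sync ξ hξ u c this).2
      exact h.stable u w η hu' (h.le _ hη) huw h2

/-- case `wv ∈ F` -/
theorem SyncPair.caseB' (h : SyncPair F E) {u w v : List A} (hu : InM F E u) (hv : InM F E v)
    (huw : InM F E (u ++ w)) (hwv : w ++ v ∈ F) : w ∈ F := by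
  have hv' : v ∈ F := h.right hv hwv
  rcases huw with huw | ⟨-, ξ, hξ, t, hwt⟩
  · exact h.stable u w v (h.left hu huw) hv' huw hwv
  · rcases hu with hu | ⟨-, η, hη, t', rfl⟩
    · have h1 : t ++ ξ ++ v ∈ F := by
        rw [← hwt, List.append_assoc]
        exact h.mul _ _ hu hwv
      have h2 := (h.sync ξ hξ t v h1).1
      rw [← hwt] at h2
      exact h.stable u w v hu hv' h2 hwv
    · have h1 : η ++ w ++ v ∈ F := by
        rw [List.append_assoc]
        exact h.mul _ _ (h.le _ hη) hwv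
      have h2 : η ++ w ∈ F := by
        rw [List.append_assoc] at hwt
        rcases List.append_eq_append_iff.1 hwt with ⟨c, hc, hc'⟩ | ⟨c, hc, hc'⟩
        · -- η ++ w = c ++ ξ
          have : c ++ ξ ++ v ∈ F := by
            rw [← hc']; exact h1
          rw [hc']
          exact (h.sync ξ hξ c v this).1
        · -- ξ = c ++ (η ++ w)
          have : c ++ η ++ w ∈ F := by
            rw [List.append_assoc, ← hc']; exact h.le _ hξ
          exact (h.sync η hη c w this).2
      exact h.stable η w v (h.le _ hη) hv' h2 hwv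

theorem SyncPair.stableM (h : SyncPair F E) {u w v : List A} (hu : InM F E u) (hv : InM F E v)
    (huw : InM F E (u ++ w)) (hwv : InM F E (w ++ v)) : InM F E w := by
  have huw0 := huw
  have hwv0 := hwv
  rcases huw with huw | ⟨-, ξ', hξ', s, hs⟩
  · exact Or.inl (h.caseB hu hv huw hwv0)
  rcases hwv with hwv | ⟨⟨ξ, hξ, t, ht⟩, -⟩
  · exact Or.inl (h.caseB' hu hv huw0 hwv)
  -- u ++ w = s ++ ξ',  w ++ v = ξ ++ t
  rcases List.append_eq_append_iff.1 ht with ⟨r, hr, hr'⟩ | ⟨r, hr, hr'⟩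
  · -- ξ = w ++ r
    left
    rcases List.append_eq_append_iff.1 hs with ⟨q, hq, hq'⟩ | ⟨q, hq, hq'⟩
    · -- s = u ++ q, w = q ++ ξ'
      have : q ++ ξ' ++ r ∈ F := by rw [← hq', ← hr]; exact h.le _ hξ
      rw [hq']
      exact (h.sync ξ' hξ' q r this).1
    · -- u = s ++ q, ξ' = q ++ w
      rcases hu with hu | ⟨-, η, hη, t', hu'⟩
      · have h1 : s ++ ξ' ++ r ∈ F := by
          rw [← hs, List.append_assoc, ← hr]
          exact h.mul _ _ hu (h.le _ hξ)
        have h2 := (h.sync ξ' hξ' s r h1).1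
        rw [← hs] at h2
        exact h.caseB (Or.inl hu) hv h2 hwv0
      · -- u = t' ++ η = s ++ q
        have hηw : η ++ w ∈ F := by
          rw [hq] at hu'
          rcases List.append_eq_append_iff.1 hu' with ⟨c, hc, hc'⟩ | ⟨c, hc, hc'⟩
          · -- t' = s ++ c, q = c ++ η
            have : c ++ η ++ w ∈ F := by
              rw [← hc', ← hq']; exact h.le _ hξ'
            exact (h.sync η hη c w this).2
          · -- s = t' ++ c, η = c ++ q
            have : c ++ ξ' ++ r ∈ F := by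
              have e : c ++ ξ' ++ r = η ++ ξ := by
                rw [hq', hc', hr]; simp
              rw [e]
              exact h.mul _ _ (h.le _ hη) (h.le _ hξ)
            have h2 := (h.sync ξ' hξ' c r this).1
            rw [hc', List.append_assoc, ← hq']
            exact h2
        exact h.caseB (Or.inl (h.le _ hη)) hv hηw hwv0
  · -- w = ξ ++ r
    rcases List.append_eq_append_iff.1 hs with ⟨q, hq, hq'⟩ | ⟨q, hq, hq'⟩
    · -- s = u ++ q, w = q ++ ξ'
      exact Or.inr ⟨⟨ξ, hξ, r, hr⟩, ⟨ξ', hξ', q, hq'⟩⟩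
    · -- u = s ++ q, ξ' = q ++ w
      left
      have : q ++ ξ ++ r ∈ F := by
        rw [List.append_assoc, ← hr, ← hq']; exact h.le _ hξ'
      rw [hr]
      exact (h.sync ξ hξ q r this).2

/-- synchronization of the completed monoid -/
theorem SyncPair.syncM (h : SyncPair F E) {x y u v : List A} (hx : SufE E x) (hy : PreE E y)
    (hm : InM F E (u ++ x ++ y ++ v)) : InM F E (u ++ x) ∧ InM F E (y ++ v) := by
  obtain ⟨ξ', hξ', x', rfl⟩ := hx
  obtain ⟨ξ, hξ, y', rfl⟩ := hy
  rcases hm with hm | ⟨⟨η, hη, t, ht⟩, ⟨η', hη', t', ht'⟩⟩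
  · constructor
    · left
      have : (u ++ x') ++ ξ' ++ (ξ ++ y' ++ v) ∈ F := by
        simpa [List.append_assoc] using hm
      have := (h.sync ξ' hξ' _ _ this).1
      simpa [List.append_assoc] using this
    · left
      have : (u ++ (x' ++ ξ')) ++ ξ ++ (y' ++ v) ∈ F := by
        simpa [List.append_assoc] using hm
      have := (h.sync ξ hξ _ _ this).2
      simpa [List.append_assoc] using this
  · constructor
    · -- ux
      have e : (u ++ (x' ++ ξ')) ++ (ξ ++ y' ++ v) = η ++ t := by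
        rw [← ht]; simp
      rcases List.append_eq_append_iff.1 e with ⟨c, hc, hc'⟩ | ⟨c, hc, hc'⟩
      · -- η = u x ++ c
        left
        have : (u ++ x') ++ ξ' ++ c ∈ F := by
          have e2 : (u ++ x') ++ ξ' ++ c = η := by rw [hc]; simp
          rw [e2]; exact h.le _ hη
        have := (h.sync ξ' hξ' _ _ this).1
        simpa [List.append_assoc] using this
      · right
        exact ⟨⟨η, hη, c, hc⟩, ⟨ξ', hξ', u ++ x', by simp⟩⟩
    · have e : (u ++ (x' ++ ξ')) ++ (ξ ++ y' ++ v) = t' ++ η' := by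
        rw [← ht']; simp
      rcases List.append_eq_append_iff.1 e with ⟨c, hc, hc'⟩ | ⟨c, hc, hc'⟩
      · -- y v = c ++ η'
        right
        exact ⟨⟨ξ, hξ, y' ++ v, by simp⟩, ⟨η', hη', c, hc'⟩⟩
      · -- η' = c ++ y v
        left
        have : c ++ ξ ++ (y' ++ v) ∈ F := by
          have e2 : c ++ ξ ++ (y' ++ v) = η' := by rw [hc']; simp
          rw [e2]; exact h.le _ hη'
        have := (h.sync ξ hξ _ _ this).2
        simpa [List.append_assoc] using this

end Pool.Agent.Helper75
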