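import Pool.Agent.Helper75.CodeDefs

/-! Definition: two-sided synchronization delay. -/

namespace Pool.Agent.Helper75.Codes

open scoped Computability

universe u
variable {A : Type u}

/-- `X` has two-sided synchronization delay `d`: for all `x, y ∈ X ^ d` and all words `u, v`,
if `u x y v ∈ X∗` then `u x ∈ X∗` and `y v ∈ X∗`. -/
def HasTwoSidedSyncDelay (X : Language A) (d : ℕ) : Prop :=
  ∀ x ∈ X ^ d, ∀ y ∈ X ^ d, ∀ u v : List A,
    u ++ x ++ y ++ v ∈ X∗ → u ++ x ∈ X∗ ∧ y ++ v ∈ X∗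

end Pool.Agent.Helper75.Codes
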