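import Pool.Agent.Helper75.SyncTwo
import Pool.Agent.Helper75.TwoSidedDefs

/-! Every regular code with bounded (two-sided) synchronization delay is contained in a regular
maximal code with bounded synchronization delay. -/

namespace Pool.Agent.Helper75

open Language Set Codes
open scoped Computability

universe u
variable {A : Type u}

theorem pow_le_kstar {X : Language A} {n : ℕ} {x : List A} (hx : x ∈ X ^ n) : x ∈ X∗ := by
  obtain ⟨S, rfl, -, hS⟩ := Language.mem_pow.1 hx
  exact join_mem_kstar hS

/-- a word of a code is not a product of two nonempty words of `X∗` -/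
theorem code_irred {X : Language A} (hX : IsCode X) {a b : List A} (h : a ++ b ∈ X)
    (ha : a ∈ X∗) (hb : b ∈ X∗) (ha' : a ≠ []) (hb' : b ≠ []) : False := by
  obtain ⟨La, hLa, hLa'⟩ := Language.mem_kstar.1 ha
  obtain ⟨Lb, hLb, hLb'⟩ := Language.mem_kstar.1 hb
  have : La ++ Lb = [a ++ b] := by
    apply hX.2
    · intro w hw
      rcases List.mem_append.1 hw with h | h
      · exact hLa' _ h
      · exact hLb' _ h
    · intro w hw
      rw [List.mem_singleton.1 hw]; exact h
    · rw [List.flatten_append, ← hLa, ← hLb]; simp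
  have hlen := congrArg List.length this
  rw [List.length_append, List.length_singleton] at hlen
  have h1 : La ≠ [] := by
    rintro rfl; apply ha'; rw [hLa]; rfl
  have h2 : Lb ≠ [] := by
    rintro rfl; apply hb'; rw [hLb]; rfl
  have h3 := List.length_pos_iff.2 h1
  have h4 := List.length_pos_iff.2 h2
  omega

theorem mem_base_kstar {X M : Language A} (hM : ∀ w, w ∈ X∗ → w ∈ M) {b : List A}
    (hb : b ∈ base M) (hbX : b ∈ X∗) : b ∈ X := by
  obtain ⟨L, hL, hL'⟩ := Language.mem_kstar_iff_exists_nonempty.1 hbX
  cases L with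
  | nil => exact absurd hL (base_ne_nil _ hb)
  | cons a L =>
    cases L with
    | nil =>
      have : b = a := by simpa using hL
      rw [this]; exact (hL' a (by simp)).1
    | cons c L =>
      exfalso
      rw [hL, List.flatten_cons] at hb
      apply base_irred M hb
      · exact hM _ (mem_kstar_of_mem (hL' a (by simp)).1)
      · apply hM
        exact join_mem_kstar (fun y hy => (hL' y (by simp [hy])).1)
      · exact (hL' a (by simp)).2
      · rw [List.flatten_cons]
        intro h
        exact (hL' c (by simp)).2 (List.append_eq_nil_iff.1 h).1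

theorem sync_succ {X : Language A} {d : ℕ} (h : HasTwoSidedSyncDelay X d) : HasTwoSidedSyncDelay X (d + 1) := by
  intro x hx y hy u v huv
  rw [pow_succ'] at hx
  rw [pow_succ] at hy
  obtain ⟨x1, hx1, x2, hx2, rfl⟩ := Language.mem_mul.1 hx
  obtain ⟨y1, hy1, y2, hy2, rfl⟩ := Language.mem_mul.1 hy
  have := h x2 hx2 y1 hy1 (u ++ x1) (y2 ++ v) (by simpa [List.append_assoc] using huv)
  simpa [List.append_assoc] using this

theorem pre_pow {X : Language A} (n : ℕ) {f ξ : List A} (hf : f ∈ X∗) (hξ : ξ ∈ X ^ n) :
    ∃ ξ' ∈ X ^ n, ∃ s, f ++ ξ = ξ' ++ s := by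
  obtain ⟨L, rfl, hL⟩ := Language.mem_kstar.1 hf
  obtain ⟨S, rfl, hlen, hS⟩ := Language.mem_pow.1 hξ
  refine ⟨((L ++ S).take n).flatten, ?_, ((L ++ S).drop n).flatten, ?_⟩
  · rw [Language.mem_pow]
    refine ⟨(L ++ S).take n, rfl, ?_, ?_⟩
    · rw [List.length_take, List.length_append, hlen]; omega
    · intro y hy
      have := List.mem_of_mem_take hy
      rcases List.mem_append.1 this with h | h
      · exact hL _ h
      · exact hS _ h
  · rw [← List.flatten_append, ← List.flatten_append, List.take_append_drop]

theorem suf_pow {X : Language A} (n : ℕ) {f ξ : List A} (hf : f ∈ X∗) (hξ : ξ ∈ X ^ n) :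
    ∃ ξ' ∈ X ^ n, ∃ s, ξ ++ f = s ++ ξ' := by
  obtain ⟨L, rfl, hL⟩ := Language.mem_kstar.1 hf
  obtain ⟨S, rfl, hlen, hS⟩ := Language.mem_pow.1 hξ
  refine ⟨((S ++ L).drop L.length).flatten, ?_, ((S ++ L).take L.length).flatten, ?_⟩
  · rw [Language.mem_pow]
    refine ⟨(S ++ L).drop L.length, rfl, ?_, ?_⟩
    · rw [List.length_drop, List.length_append, hlen]; omega
    · intro y hy
      have := List.mem_of_mem_drop hy
      rcases List.mem_append.1 this with h | h
      · exact hS _ h
      · exact hL _ h
  · rw [← List.flatten_append, ← List.flatten_append, List.take_append_drop]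

theorem syncPair_of_delay {X : Language A} (hX : IsCode X) {d : ℕ} (h : HasTwoSidedSyncDelay X d) :
    SyncPair (X∗) (X ^ (2 * d)) where
  one := nil_mem_kstar _
  mul _ _ ha hb := kstar_append ha hb
  stable _ _ _ hu hv huw hwv := stable_of_code hX hu hv huw hwv
  le ξ hξ := pow_le_kstar hξ
  sync := by
    intro ξ hξ u v huv
    rw [two_mul, pow_add] at hξ
    obtain ⟨ξ1, h1, ξ2, h2, rfl⟩ := Language.mem_mul.1 hξ
    have := h ξ1 h1 ξ2 h2 u v (by simpa [List.append_assoc] using huv)
    refine ⟨?_, ?_⟩
    · rw [← List.append_assoc]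
      exact kstar_append this.1 (pow_le_kstar h2)
    · rw [List.append_assoc]
      exact kstar_append (pow_le_kstar h1) this.2
  fe f hf ξ hξ := pre_pow _ hf hξ
  ef ξ hξ f hf := suf_pow _ hf hξ

/-- the completed monoid as a language -/
def complM (F E : Language A) : Language A := F + (E * ⊤ ⊓ ⊤ * E)

theorem mem_complM {F E : Language A} {w : List A} : w ∈ complM F E ↔ InM F E w := by
  have h1 : w ∈ E * (⊤ : Language A) ↔ PreE E w := by
    rw [Language.mem_mul]
    constructor
    · rintro ⟨a, ha, b, -, rfl⟩
      exact ⟨a, ha, b, rfl⟩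
    · rintro ⟨a, ha, b, rfl⟩
      exact ⟨a, ha, b, Set.mem_univ _, rfl⟩
  have h2 : w ∈ (⊤ : Language A) * E ↔ SufE E w := by
    rw [Language.mem_mul]
    constructor
    · rintro ⟨a, -, b, hb, rfl⟩
      exact ⟨b, hb, a, rfl⟩
    · rintro ⟨b, hb, a, rfl⟩
      exact ⟨a, Set.mem_univ _, b, hb, rfl⟩
  rw [complM, Language.mem_add, InM, ← h1, ← h2]
  rfl

/-- the language of all one-letter words -/
def letters (A : Type u) : Language A := {w : List A | w.length = 1}

theorem letters_code : IsCode (letters A) := by
  refine ⟨fun h => by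
    have h' : ([] : List A).length = 1 := h
    simp at h', ?_⟩
  intro L₁ 
  induction L₁ with
  | nil =>
    intro L₂ _ h2 hf
    cases L₂ with
    | nil => rfl
    | cons w L₂ =>
      exfalso
      have : w.length = 1 := h2 w (by simp)
      simp only [List.flatten_nil, List.flatten_cons] at hf
      have := (List.append_eq_nil_iff.1 hf.symm).1
      subst this
      simp at *
  | cons w L₁ ih =>
    intro L₂ h1 h2 hf
    have hw : w.length = 1 := h1 w (by simp)
    cases L₂ with
    | nil =>
      exfalso
      simp only [List.flatten_nil, List.flatten_cons] at hf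
      have := (List.append_eq_nil_iff.1 hf).1
      subst this
      simp at hw
    | cons w' L₂ =>
      have hw' : w'.length = 1 := h2 w' (by simp)
      rw [List.flatten_cons, List.flatten_cons] at hf
      obtain ⟨e1, e2⟩ := List.append_inj hf (by rw [hw, hw'])
      rw [e1, ih L₂ (fun x hx => h1 x (by simp [hx])) (fun x hx => h2 x (by simp [hx])) e2]

theorem letters_regular : (letters A).IsRegular := by
  apply regular_of_finite_invariant (T := ℕ) (S := Set.Iic 2) (Set.finite_Iic 2)
    (fun x => min x.length 2)
  · intro x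
    exact (Nat.min_le_right x.length 2 : min x.length 2 ≤ 2)
  · intro x y hxy
    ext z
    simp only [mem_leftQuotient]
    have e : ∀ w : List A, (x ++ w ∈ letters A) ↔
        x.length + w.length = 1 := by
      intro w
      rw [← List.length_append]; rfl
    have e' : ∀ w : List A, (y ++ w ∈ letters A) ↔
        y.length + w.length = 1 := by
      intro w
      rw [← List.length_append]; rfl
    rw [e, e']
    have hxy' : min x.length 2 = min y.length 2 := hxy
    omega

theorem letters_kstar (w : List A) : w ∈ (letters A)∗ := by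
  induction w with
  | nil => exact nil_mem_kstar _
  | cons a w ih =>
    have : a :: w = [a] ++ w := rfl
    rw [this]
    exact kstar_append (mem_kstar_of_mem (by show [a].length = 1; rfl)) ih

theorem letters_maximal : IsMaximalCode (letters A) := by
  refine ⟨letters_code, ?_⟩
  intro Z hZ hle
  apply le_antisymm _ hle
  intro z hz
  by_contra hcon
  obtain ⟨L, hL, hL'⟩ := Language.mem_kstar.1 (letters_kstar z)
  have : L = [z] := by
    apply hZ.2
    · intro w hw
      exact hle (hL' w hw)
    · intro w hw
      rw [List.mem_singleton.1 hw]; exact hz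
    · rw [← hL]; simp
  apply hcon
  apply hL'
  rw [this]; simp

/-- the main theorem (two-sided delay) -/
theorem completion_two_sided (X : Language A) (hX : IsCode X) (hreg : X.IsRegular) (d : ℕ)
    (hd : HasTwoSidedSyncDelay X d) :
    ∃ Y : Language A, X ≤ Y ∧ Y.IsRegular ∧ IsMaximalCode Y ∧ HasTwoSidedSyncDelay Y (2 * d) := by
  classical
  -- the easy case
  by_cases hcase : ∀ x ∈ X, x.length = 1
  · refine ⟨letters A, fun x hx => hcase x hx, letters_regular,
      letters_maximal, ?_⟩
    intro x _ y _ u v _
    exact ⟨letters_kstar _, letters_kstar _⟩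
  push Not at hcase
  obtain ⟨x0, hx0, hx0l⟩ := hcase
  have hx0n : x0 ≠ [] := by
    rintro rfl
    exact hX.1 hx0
  -- `d ≥ 1`
  have hd1 : 1 ≤ d := by
    by_contra hcon
    have hd0 : d = 0 := by omega
    subst hd0
    cases x0 with
    | nil => exact hx0n rfl
    | cons a t =>
      have ht : t ≠ [] := by
        rintro rfl
        exact hx0l rfl
      have := hd [] (by rw [pow_zero]; rfl) [] (by rw [pow_zero]; rfl) [a] t
        (by simpa using mem_kstar_of_mem hx0)
      simp only [List.append_nil, List.nil_append] at this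
      exact code_irred hX (a := [a]) (b := t) (by simpa using hx0) this.1 this.2 (by simp) ht
  have hP : SyncPair (X∗) (X ^ (2 * d)) := syncPair_of_delay hX hd
  set F : Language A := X∗ with hF
  set E : Language A := X ^ (2 * d) with hE
  set M : Language A := complM F E with hM
  have hmem : ∀ w, w ∈ M ↔ InM F E w := fun w => mem_complM
  have hM1 : [] ∈ M := (hmem _).2 (Or.inl hP.one)
  have hMmul : ∀ a b, a ∈ M → b ∈ M → a ++ b ∈ M := by
    intro a b ha hb
    exact (hmem _).2 (hP.mulM ((hmem _).1 ha) ((hmem _).1 hb))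
  have hMst : ∀ u w v : List A, u ∈ M → v ∈ M → u ++ w ∈ M → w ++ v ∈ M → w ∈ M := by
    intro u w v hu hv huw hwv
    exact (hmem _).2 (hP.stableM ((hmem _).1 hu) ((hmem _).1 hv) ((hmem _).1 huw)
      ((hmem _).1 hwv))
  have hFM : ∀ w, w ∈ F → w ∈ M := fun w hw => (hmem _).2 (Or.inl hw)
  have hYstar : (base M)∗ = M := kstar_base hM1 hMmul
  have hcode : IsCode (base M) := isCode_base hM1 hMmul hMst
  -- a word of `E`
  obtain ⟨p, hp⟩ : ∃ p, p ∈ E := by
    rw [hE]
    refine ⟨(List.replicate (2 * d) x0).flatten, ?_⟩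
    rw [Language.mem_pow]
    refine ⟨List.replicate (2 * d) x0, rfl, by simp, ?_⟩
    intro y hy
    rw [List.eq_of_mem_replicate hy]; exact hx0
  have hpF : p ∈ F := hP.le p hp
  refine ⟨base M, ?_, ?_, ?_, ?_⟩
  · -- X ≤ base M
    intro x hx
    have hxF : x ∈ F := mem_kstar_of_mem hx
    refine mem_base (hFM _ hxF) ?_ ?_
    · rintro rfl; exact hX.1 hx
    · intro a b ha hb ha0 hb0 hab
      rw [← hab] at hx hxF
      have ha' : a ∈ F := hP.left ((hmem _).1 ha) hxF
      have hb' : b ∈ F := hP.right ((hmem _).1 hb) hxF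
      exact code_irred hX hx ha' hb' ha0 hb0
  · apply regular_base
    rw [hM, complM]
    exact (regular_kstar hreg).add
      ((regular_mul (regular_pow hreg _) regular_top).inf
        (regular_mul regular_top (regular_pow hreg _)))
  · apply maximal_of_absorbing hcode (p := p)
    · rw [hYstar]; exact hFM _ hpF
    · intro z
      rw [hYstar, hmem]
      exact Or.inr ⟨⟨p, hp, z ++ p, by simp⟩, ⟨p, hp, p ++ z, rfl⟩⟩
  · -- sync delay
    have hpow : ∀ n, ∀ x ∈ (base M) ^ n, x ∈ X ^ n ∨ (PreE E x ∧ SufE E x) := by
      intro n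
      induction n with
      | zero => intro x hx; left; simpa using hx
      | succ n ih =>
        intro x hx
        rw [pow_succ] at hx
        obtain ⟨a, ha, b, hb, rfl⟩ := Language.mem_mul.1 hx
        have hbM := (hmem _).1 (base_le _ hb)
        rcases ih a ha with ha' | ⟨ha', ha''⟩
        · rcases hbM with hbF | ⟨hb', hb''⟩
          · left
            rw [pow_succ]
            exact Language.append_mem_mul ha' (mem_base_kstar hFM hb hbF)
          · right
            exact ⟨hP.preE_F (pow_le_kstar ha') hb', sufE_append hb'' _⟩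
        · right
          refine ⟨preE_append ha' _, ?_⟩
          rcases hbM with hbF | ⟨hb', hb''⟩
          · exact hP.sufE_F hbF ha''
          · exact sufE_append hb'' _
    have hpow' : ∀ x ∈ (base M) ^ (2 * d), PreE E x ∧ SufE E x := by
      intro x hx
      rcases hpow _ x hx with h | h
      · exact ⟨⟨x, h, [], by simp⟩, ⟨x, h, [], by simp⟩⟩
      · exact h
    intro x hx y hy u v huv
    rw [hYstar] at huv ⊢
    have := hP.syncM (hpow' x hx).2 (hpow' y hy).1 ((hmem _).1 huv)
    exact ⟨(hmem _).2 this.1, (hmem _).2 this.2⟩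

end Pool.Agent.Helper75
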